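import Mathlib

set_option autoImplicit false

open Finset Filter Topology
open scoped InnerProductSpace

namespace Pool.Agent.W_cae956_h75

variable {H : Type*} [NormedAddCommGroup H] [InnerProductSpace ℝ H]

/-- shifted sums differ by boundary terms -/
theorem sum_shift_sub (f : ℕ → ℝ) (B : ℝ) (hB : ∀ n, |f n| ≤ B) (j N : ℕ) :
    |∑ n ∈ range N, f (n + j) - ∑ n ∈ range N, f n| ≤ 2 * j * B := by
  induction j with
  | zero => simp
  | succ j ih =>
    have h1 : ∑ n ∈ range N, f (n + (j + 1)) = ∑ n ∈ range N, f (n + j) + f (N + j) - f j := by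
      have := Finset.sum_range_succ' (fun n => f (n + j)) N
      have h2 := Finset.sum_range_succ (fun n => f (n + j)) N
      have h3 : ∑ k ∈ range N, f (k + 1 + j) = ∑ n ∈ range N, f (n + (j + 1)) := by
        apply Finset.sum_congr rfl; intro n _; congr 1; ring
      simp only [zero_add] at this
      linarith
    rw [h1]
    have e1 := hB (N + j)
    have e2 := hB j
    rw [abs_le] at *
    push_cast
    constructor <;> nlinarith [e1.1, e1.2, e2.1, e2.2, ih.1, ih.2]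

theorem corr_tendsto (u : ℕ → H) (B : ℝ) (hB : ∀ n, ‖u n‖ ≤ B)
    (hc : ∀ h : ℕ, 0 < h →
      Tendsto (fun N : ℕ => (1 / (N : ℝ)) * ∑ n ∈ range N, ⟪u (n + h), u n⟫_ℝ) atTop (𝓝 0))
    (i j : ℕ) (hij : i ≠ j) :
    Tendsto (fun N : ℕ => (1 / (N : ℝ)) * ∑ n ∈ range N, ⟪u (n + i), u (n + j)⟫_ℝ)
      atTop (𝓝 0) := by
  have hB0 : 0 ≤ B := (norm_nonneg _).trans (hB 0)
  wlog h : j < i generalizing i j
  · have := this j i hij.symm (by omega)
    refine this.congr (fun N => ?_)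
    congr 1
    apply Finset.sum_congr rfl
    intro n _
    exact real_inner_comm _ _
  obtain ⟨k, rfl⟩ : ∃ k, i = j + k := ⟨i - j, by omega⟩
  have h0 : 0 < k := by omega
  have hb : ∀ n, |⟪u (n + k), u n⟫_ℝ| ≤ B * B := fun n =>
    (abs_real_inner_le_norm _ _).trans (mul_le_mul (hB _) (hB _) (norm_nonneg _) hB0)
  have key := fun N => sum_shift_sub (fun n => ⟪u (n + k), u n⟫_ℝ) (B * B) hb j N
  have h1 := hc k h0
  have h2 : Tendsto (fun N : ℕ => (1 / (N : ℝ)) * (2 * j * (B * B))) atTop (𝓝 0) := by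
    have := (tendsto_one_div_atTop_nhds_zero_nat (𝕜 := ℝ)).mul_const (2 * j * (B * B))
    simpa using this
  have h3 : Tendsto (fun N : ℕ => (1 / (N : ℝ)) * ∑ n ∈ range N, ⟪u (n + (j + k)), u (n + j)⟫_ℝ
      - (1 / (N : ℝ)) * ∑ n ∈ range N, ⟪u (n + k), u n⟫_ℝ) atTop (𝓝 0) := by
    refine squeeze_zero_norm (fun N => ?_) h2
    rw [← mul_sub, norm_mul, Real.norm_eq_abs, Real.norm_eq_abs,
      abs_of_nonneg (by positivity : (0 : ℝ) ≤ 1 / (N : ℝ))]
    apply mul_le_mul_of_nonneg_left _ (by positivity)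
    have := key N
    simpa [add_assoc, add_comm, add_left_comm] using this
  have h4 := h3.add h1
  simpa using h4

/-- van der Corput lemma in a real inner product space -/
theorem vdc (u : ℕ → H) (B : ℝ) (hB : ∀ n, ‖u n‖ ≤ B)
    (hc : ∀ h : ℕ, 0 < h →
      Tendsto (fun N : ℕ => (1 / (N : ℝ)) * ∑ n ∈ range N, ⟪u (n + h), u n⟫_ℝ) atTop (𝓝 0)) :
    Tendsto (fun N : ℕ => (1 / (N : ℝ)) • ∑ n ∈ range N, u n) atTop (𝓝 0) := by
  have hB0 : 0 ≤ B := (norm_nonneg _).trans (hB 0)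
  rw [tendsto_zero_iff_norm_tendsto_zero]
  rw [Metric.tendsto_atTop]
  intro ε hε
  -- choose m
  obtain ⟨m, hm⟩ := exists_nat_gt (8 * B ^ 2 / ε ^ 2)
  have hm0 : 0 < m := by
    rcases Nat.eq_zero_or_pos m with h | h
    · subst h
      have : 0 ≤ 8 * B ^ 2 / ε ^ 2 := by positivity
      simp at hm; linarith
    · exact h
  have hmR : (0 : ℝ) < m := by exact_mod_cast hm0
  -- the off diagonal sum
  have hoff : Tendsto (fun N : ℕ => ∑ i ∈ range m, ∑ j ∈ (range m).erase i,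
      (1 / (N : ℝ)) * ∑ n ∈ range N, ⟪u (n + i), u (n + j)⟫_ℝ) atTop (𝓝 0) := by
    have : Tendsto (fun N : ℕ => ∑ i ∈ range m, ∑ j ∈ (range m).erase i,
      (1 / (N : ℝ)) * ∑ n ∈ range N, ⟪u (n + i), u (n + j)⟫_ℝ) atTop
        (𝓝 (∑ i ∈ range m, ∑ j ∈ (range m).erase i, (0 : ℝ))) := by
      apply tendsto_finsetSum
      intro i _
      apply tendsto_finsetSum
      intro j hj
      exact corr_tendsto u B hB hc i j (Finset.ne_of_mem_erase hj).symm
    simpa using this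
  have hbd : Tendsto (fun N : ℕ => (1 / (N : ℝ)) * (2 * m * B)) atTop (𝓝 0) := by
    have := (tendsto_one_div_atTop_nhds_zero_nat (𝕜 := ℝ)).mul_const (2 * m * B)
    simpa using this
  have hε1 : 0 < ε ^ 2 / 8 := by positivity
  obtain ⟨N1, hN1⟩ := (Metric.tendsto_atTop.1 hoff) (ε ^ 2 / 8) hε1
  obtain ⟨N2, hN2⟩ := (Metric.tendsto_atTop.1 hbd) (ε / 4) (by positivity)
  refine ⟨max (max N1 N2) 1, fun N hN => ?_⟩
  have hNN1 : N1 ≤ N := le_trans (le_trans (le_max_left _ _) (le_max_left _ _)) hN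
  have hNN2 : N2 ≤ N := le_trans (le_trans (le_max_right _ _) (le_max_left _ _)) hN
  have hN0 : 1 ≤ N := le_trans (le_max_right _ _) hN
  have hNR : (0 : ℝ) < N := by exact_mod_cast hN0
  have e1 := hN1 N hNN1
  have e2 := hN2 N hNN2
  simp only [dist_zero_right, Real.norm_eq_abs] at e1 e2 ⊢
  rw [abs_of_nonneg (norm_nonneg _)]
  -- the smoothed sum
  set W : H := ∑ n ∈ range N, ∑ i ∈ range m, u (n + i) with hW
  have hW2 : ‖W‖ ^ 2 ≤ N * ∑ n ∈ range N, ‖∑ i ∈ range m, u (n + i)‖ ^ 2 := by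
    have a1 : ‖W‖ ≤ ∑ n ∈ range N, ‖∑ i ∈ range m, u (n + i)‖ := norm_sum_le _ _
    have a2 : (∑ n ∈ range N, ‖∑ i ∈ range m, u (n + i)‖) ^ 2 ≤
        (range N).card * ∑ n ∈ range N, ‖∑ i ∈ range m, u (n + i)‖ ^ 2 :=
      sq_sum_le_card_mul_sum_sq
    rw [card_range] at a2
    calc ‖W‖ ^ 2 ≤ (∑ n ∈ range N, ‖∑ i ∈ range m, u (n + i)‖) ^ 2 := by gcongr
      _ ≤ _ := a2
  have hexp : ∑ n ∈ range N, ‖∑ i ∈ range m, u (n + i)‖ ^ 2 =
      ∑ i ∈ range m, ∑ j ∈ range m, ∑ n ∈ range N, ⟪u (n + i), u (n + j)⟫_ℝ := by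
    have : ∀ n, ‖∑ i ∈ range m, u (n + i)‖ ^ 2 =
        ∑ i ∈ range m, ∑ j ∈ range m, ⟪u (n + i), u (n + j)⟫_ℝ := by
      intro n
      rw [← real_inner_self_eq_norm_sq, sum_inner]
      apply Finset.sum_congr rfl
      intro i _
      rw [inner_sum]
    simp_rw [this]
    rw [Finset.sum_comm]
    apply Finset.sum_congr rfl
    intro i _
    rw [Finset.sum_comm]
  have hsplit : (1 / (N : ℝ)) * ∑ n ∈ range N, ‖∑ i ∈ range m, u (n + i)‖ ^ 2 ≤
      ε ^ 2 / 8 + m * B ^ 2 := by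
    rw [hexp, Finset.mul_sum]
    simp_rw [Finset.mul_sum (range m)]
    have b1 : ∀ i ∈ range m, ∑ j ∈ range m, (1 / (N : ℝ)) *
        ∑ n ∈ range N, ⟪u (n + i), u (n + j)⟫_ℝ ≤
        (∑ j ∈ (range m).erase i, (1 / (N : ℝ)) * ∑ n ∈ range N, ⟪u (n + i), u (n + j)⟫_ℝ)
          + B ^ 2 := by
      intro i hi
      rw [← Finset.add_sum_erase _ _ hi]
      have : (1 / (N : ℝ)) * ∑ n ∈ range N, ⟪u (n + i), u (n + i)⟫_ℝ ≤ B ^ 2 := by
        have : ∑ n ∈ range N, ⟪u (n + i), u (n + i)⟫_ℝ ≤ ∑ n ∈ range N, B ^ 2 := by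
          apply Finset.sum_le_sum
          intro n _
          rw [real_inner_self_eq_norm_sq]
          have := hB (n + i)
          have := norm_nonneg (u (n + i))
          gcongr
        rw [Finset.sum_const, card_range, nsmul_eq_mul] at this
        calc (1 / (N : ℝ)) * ∑ n ∈ range N, ⟪u (n + i), u (n + i)⟫_ℝ
            ≤ (1 / (N : ℝ)) * (N * B ^ 2) := by gcongr
          _ = B ^ 2 := by field_simp
      linarith
    calc _ ≤ ∑ i ∈ range m, ((∑ j ∈ (range m).erase i,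
          (1 / (N : ℝ)) * ∑ n ∈ range N, ⟪u (n + i), u (n + j)⟫_ℝ) + B ^ 2) :=
            Finset.sum_le_sum b1
      _ = (∑ i ∈ range m, ∑ j ∈ (range m).erase i,
          (1 / (N : ℝ)) * ∑ n ∈ range N, ⟪u (n + i), u (n + j)⟫_ℝ) + m * B ^ 2 := by
            rw [Finset.sum_add_distrib]; simp
      _ ≤ _ := by
        have := (abs_lt.1 e1).2
        linarith
  -- compare with m times the sum
  have hcmp : ‖(m : ℝ) • ∑ n ∈ range N, u n - W‖ ≤ m * (2 * m * B) := by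
    have c1 : (m : ℝ) • ∑ n ∈ range N, u n - W =
        ∑ i ∈ range m, (∑ n ∈ range N, u n - ∑ n ∈ range N, u (n + i)) := by
      rw [hW, Finset.sum_comm, Finset.sum_sub_distrib, Finset.sum_const, card_range]
      rw [Nat.cast_smul_eq_nsmul]
    rw [c1]
    have c2 : ∀ i : ℕ, ‖∑ n ∈ range N, u n - ∑ n ∈ range N, u (n + i)‖ ≤ 2 * i * B := by
      intro i
      induction i with
      | zero => simp
      | succ i ih =>
        have h1 : ∑ n ∈ range N, u (n + (i + 1)) =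
            ∑ n ∈ range N, u (n + i) + u (N + i) - u i := by
          have := Finset.sum_range_succ' (fun n => u (n + i)) N
          have h2 := Finset.sum_range_succ (fun n => u (n + i)) N
          have h3 : ∑ k ∈ range N, u (k + 1 + i) = ∑ n ∈ range N, u (n + (i + 1)) := by
            apply Finset.sum_congr rfl; intro n _; congr 1; ring
          simp only [zero_add] at this
          rw [h2, h3] at this
          rw [this]; abel
        have h4 : ∑ n ∈ range N, u n - ∑ n ∈ range N, u (n + (i + 1)) =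
            (∑ n ∈ range N, u n - ∑ n ∈ range N, u (n + i)) - u (N + i) + u i := by
          rw [h1]; abel
        rw [h4]
        calc _ ≤ ‖(∑ n ∈ range N, u n - ∑ n ∈ range N, u (n + i)) - u (N + i)‖ + ‖u i‖ :=
              norm_add_le _ _
          _ ≤ (‖(∑ n ∈ range N, u n - ∑ n ∈ range N, u (n + i))‖ + ‖u (N + i)‖) + ‖u i‖ := by
              gcongr; exact norm_sub_le _ _
          _ ≤ (2 * i * B + B) + B := by gcongr <;> exact hB _
          _ = 2 * ((i + 1 : ℕ) : ℝ) * B := by push_cast; ring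
    calc _ ≤ ∑ i ∈ range m, ‖∑ n ∈ range N, u n - ∑ n ∈ range N, u (n + i)‖ := norm_sum_le _ _
      _ ≤ ∑ i ∈ range m, 2 * m * B := by
          apply Finset.sum_le_sum
          intro i hi
          have : (i : ℝ) ≤ m := by exact_mod_cast (Finset.mem_range.1 hi).le
          exact (c2 i).trans (by gcongr)
      _ = _ := by rw [Finset.sum_const, card_range, nsmul_eq_mul]
  -- conclusion
  have hS : ‖∑ n ∈ range N, u n‖ ≤ (1 / m) * ‖W‖ + 2 * m * B := by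
    have d1 : (m : ℝ) * ‖∑ n ∈ range N, u n‖ ≤ ‖W‖ + m * (2 * m * B) := by
      have : ‖(m : ℝ) • ∑ n ∈ range N, u n‖ ≤ ‖W‖ + ‖(m : ℝ) • ∑ n ∈ range N, u n - W‖ := by
        have := norm_add_le W ((m : ℝ) • ∑ n ∈ range N, u n - W)
        simpa using this
      rw [norm_smul, Real.norm_eq_abs, abs_of_pos hmR] at this
      linarith
    have : ‖∑ n ∈ range N, u n‖ = (1 / m) * ((m : ℝ) * ‖∑ n ∈ range N, u n‖) := by
      field_simp
    rw [this]
    calc (1 / (m : ℝ)) * ((m : ℝ) * ‖∑ n ∈ range N, u n‖)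
        ≤ (1 / (m : ℝ)) * (‖W‖ + m * (2 * m * B)) := by gcongr
      _ = _ := by field_simp
  have hWN : ((1 / (N : ℝ)) * ((1 / m) * ‖W‖)) ^ 2 ≤ ε ^ 2 / 4 := by
    have f1 : ((1 / (N : ℝ)) * ((1 / m) * ‖W‖)) ^ 2 = (1 / m) ^ 2 * (1 / (N : ℝ)) ^ 2 * ‖W‖ ^ 2 := by
      ring
    rw [f1]
    have f2 : (1 / (m : ℝ)) ^ 2 * (1 / (N : ℝ)) ^ 2 * ‖W‖ ^ 2 ≤
        (1 / (m : ℝ)) ^ 2 * (1 / (N : ℝ)) ^ 2 *
          (N * ∑ n ∈ range N, ‖∑ i ∈ range m, u (n + i)‖ ^ 2) := by gcongr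
    have f3 : (1 / (m : ℝ)) ^ 2 * (1 / (N : ℝ)) ^ 2 *
          (N * ∑ n ∈ range N, ‖∑ i ∈ range m, u (n + i)‖ ^ 2) =
        (1 / (m : ℝ)) ^ 2 * ((1 / (N : ℝ)) * ∑ n ∈ range N, ‖∑ i ∈ range m, u (n + i)‖ ^ 2) := by
      field_simp
    have f4 : (1 / (m : ℝ)) ^ 2 * ((1 / (N : ℝ)) *
        ∑ n ∈ range N, ‖∑ i ∈ range m, u (n + i)‖ ^ 2) ≤
        (1 / (m : ℝ)) ^ 2 * (ε ^ 2 / 8 + m * B ^ 2) := by gcongr
    have f5 : (1 / (m : ℝ)) ^ 2 * (ε ^ 2 / 8 + m * B ^ 2) =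
        (1 / (m : ℝ)) ^ 2 * (ε ^ 2 / 8) + B ^ 2 / m := by field_simp
    have f6 : (1 / (m : ℝ)) ^ 2 * (ε ^ 2 / 8) ≤ ε ^ 2 / 8 := by
      have : (1 / (m : ℝ)) ^ 2 ≤ 1 := by
        have : 1 / (m : ℝ) ≤ 1 := by
          rw [div_le_one hmR]; exact_mod_cast hm0
        calc (1 / (m : ℝ)) ^ 2 ≤ 1 ^ 2 := by gcongr
          _ = 1 := one_pow 2
      nlinarith
    have f7 : B ^ 2 / m ≤ ε ^ 2 / 8 := by
      rw [div_lt_iff₀ (by positivity)] at hm
      rw [div_le_iff₀ hmR]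
      nlinarith
    linarith
  have hWN' : (1 / (N : ℝ)) * ((1 / m) * ‖W‖) ≤ ε / 2 := by
    have : ((1 / (N : ℝ)) * ((1 / m) * ‖W‖)) ^ 2 ≤ (ε / 2) ^ 2 := by
      have : (ε / 2) ^ 2 = ε ^ 2 / 4 := by ring
      rw [this]; exact hWN
    exact le_of_sq_le_sq this (by positivity)
  rw [norm_smul, Real.norm_eq_abs, abs_of_nonneg (by positivity : (0 : ℝ) ≤ 1 / (N : ℝ))]
  have e2' := (abs_lt.1 e2).2
  calc (1 / (N : ℝ)) * ‖∑ n ∈ range N, u n‖
      ≤ (1 / (N : ℝ)) * ((1 / m) * ‖W‖ + 2 * m * B) := by gcongr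
    _ = (1 / (N : ℝ)) * ((1 / m) * ‖W‖) + (1 / (N : ℝ)) * (2 * m * B) := by ring
    _ < ε := by linarith

end Pool.Agent.W_cae956_h75
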