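import Mathlib
import Pool.Agent.W_cae956_h75.Vdc

set_option autoImplicit false
set_option linter.unusedSectionVars false

open Finset Filter Topology Polynomial
open scoped InnerProductSpace Nat

namespace Pool.Agent.W_cae956_h75

variable {H : Type*} [NormedAddCommGroup H] [InnerProductSpace ℝ H] [CompleteSpace H]

/-- fixed vectors of `K q` -/
noncomputable def fixK (K : ℤ → H →ₗᵢ[ℝ] H) (q : ℤ) : Submodule ℝ H :=
  ((K q).toContinuousLinearMap).eqLocus (1 : H →L[ℝ] H)

theorem mem_fixK (K : ℤ → H →ₗᵢ[ℝ] H) (q : ℤ) (f : H) : f ∈ fixK K q ↔ K q f = f := by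
  simp [fixK, LinearMap.mem_eqLocus]

instance (K : ℤ → H →ₗᵢ[ℝ] H) (q : ℤ) : (fixK K q).HasOrthogonalProjection := by
  unfold fixK; infer_instance

/-- closure of the vectors fixed by some factorial power -/
noncomputable def Kinf (K : ℤ → H →ₗᵢ[ℝ] H) : Submodule ℝ H :=
  (⨆ N : ℕ, fixK K (N ! : ℕ)).topologicalClosure

instance (K : ℤ → H →ₗᵢ[ℝ] H) : (Kinf K).HasOrthogonalProjection := by
  have : IsClosed (Kinf K : Set H) := Submodule.isClosed_topologicalClosure _
  have : CompleteSpace (Kinf K) := this.completeSpace_coe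
  infer_instance

noncomputable def PN (K : ℤ → H →ₗᵢ[ℝ] H) (N : ℕ) (f : H) : H :=
  (fixK K (N ! : ℕ)).starProjection f

noncomputable def Pinf (K : ℤ → H →ₗᵢ[ℝ] H) (f : H) : H := (Kinf K).starProjection f

section
variable (K : ℤ → H →ₗᵢ[ℝ] H) (h0 : ∀ f, K 0 f = f) (hadd : ∀ m n f, K (m + n) f = K m (K n f))
include h0 hadd

theorem fix_mul (q : ℤ) (f : H) (hf : K q f = f) (t : ℤ) : K (q * t) f = f := by
  induction t using Int.induction_on with
  | zero => simpa using h0 f
  | succ i ih => rw [mul_add, mul_one, add_comm, hadd, ih, hf]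
  | pred i ih =>
    have h1 : K q (K (q * (-(i : ℤ) - 1)) f) = K q f := by
      rw [← hadd, hf]
      have : q + q * (-(i : ℤ) - 1) = q * -(i : ℤ) := by ring
      rw [this, ih]
    exact (K q).injective h1

theorem K_inner (m n : ℤ) (f g : H) : ⟪K m f, K n g⟫_ℝ = ⟪K (m - n) f, g⟫_ℝ := by
  have : K m f = K n (K (m - n) f) := by rw [← hadd]; congr 2; ring
  rw [this, LinearIsometry.inner_map_map]

theorem fixK_mono_dvd {q m : ℤ} (h : q ∣ m) : fixK K q ≤ fixK K m := by
  intro f hf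
  rw [mem_fixK] at *
  obtain ⟨t, rfl⟩ := h
  exact fix_mul K h0 hadd q f hf t

theorem fixK_le_Kinf {q : ℤ} (hq : q ≠ 0) : fixK K q ≤ Kinf K := by
  have h1 : q ∣ ((q.natAbs ! : ℕ) : ℤ) := by
    rw [← Int.natAbs_dvd]
    exact_mod_cast Nat.dvd_factorial (Int.natAbs_pos.2 hq) le_rfl
  refine (fixK_mono_dvd K h0 hadd h1).trans ?_
  exact (le_iSup (fun N : ℕ => fixK K (N ! : ℕ)) q.natAbs).trans
    (Submodule.le_topologicalClosure _)

theorem mono_fix : Monotone (fun N : ℕ => fixK K (N ! : ℕ)) := by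
  intro a b hab
  exact fixK_mono_dvd K h0 hadd (by exact_mod_cast Nat.factorial_dvd_factorial hab)

theorem PN_tendsto (f : H) : Tendsto (fun N => PN K N f) atTop (𝓝 (Pinf K f)) := by
  have h := mono_fix K h0 hadd
  have : (⨆ N : ℕ, fixK K (N ! : ℕ)).topologicalClosure.HasOrthogonalProjection :=
    inferInstanceAs ((Kinf K).HasOrthogonalProjection)
  exact Submodule.starProjection_tendsto_closure_iSup _ h f

theorem PN_fixed (N : ℕ) (f : H) : K (N ! : ℕ) (PN K N f) = PN K N f := by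
  rw [← mem_fixK]
  exact Submodule.starProjection_apply_mem _ _

theorem iter_eq (q : ℤ) (g : H) (n : ℕ) : (⇑(K q).toContinuousLinearMap)^[n] g = K (q * n) g := by
  induction n with
  | zero => simp [h0]
  | succ n ih =>
    rw [Function.iterate_succ_apply', ih]
    show K q _ = _
    rw [← hadd]; congr 2; push_cast; ring

theorem lin_avg (q b : ℤ) (g : H) (hg : g ∈ (fixK K q)ᗮ) :
    Tendsto (fun N : ℕ => (1 / (N : ℝ)) • ∑ n ∈ range N, K (q * n + b) g) atTop (𝓝 0) := by
  have h1 := ContinuousLinearMap.tendsto_birkhoffAverage_orthogonalProjection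
    (K q).toContinuousLinearMap (LinearIsometry.norm_toContinuousLinearMap_le _) g
  have h2 : (((K q).toContinuousLinearMap.eqLocus (1 : H →L[ℝ] H)).orthogonalProjectionOnto g) = 0 :=
    (Submodule.orthogonalProjectionOnto_eq_zero_iff).2 hg
  rw [h2] at h1
  have h3 : Tendsto (fun N : ℕ => K b (birkhoffAverage ℝ (K q).toContinuousLinearMap _root_.id N g))
      atTop (𝓝 (K b 0)) := ((K b).continuous.tendsto _).comp (by simpa using h1)
  rw [map_zero] at h3
  refine h3.congr (fun N => ?_)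
  simp only [birkhoffAverage, birkhoffSum, map_smul, map_sum, one_div]
  congr 1
  apply Finset.sum_congr rfl
  intro n _
  rw [iter_eq K h0 hadd, _root_.id, ← hadd, add_comm]

end

theorem taylor_sub_natDegree (P : ℤ[X]) (k : ℕ) (hk : P.natDegree = k + 2) (h : ℤ) (hh : h ≠ 0) :
    0 < (taylor h P - P).natDegree ∧ (taylor h P - P).natDegree < k + 2 := by
  have hP0 : P ≠ 0 := by
    intro h; rw [h] at hk; simp at hk
  have hcoef : (taylor h P - P).coeff (k + 1) = (k + 2) * P.coeff (k + 2) * h := by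
    rw [coeff_sub, taylor_coeff]
    have hd : (hasseDeriv (k + 1) P).natDegree ≤ 1 := by
      have := natDegree_hasseDeriv_le P (k + 1)
      omega
    rw [eq_X_add_C_of_natDegree_le_one hd]
    simp only [eval_add, eval_mul, eval_C, eval_X, hasseDeriv_coeff]
    have e1 : (1 + (k + 1)).choose (k + 1) = k + 2 := by
      rw [show 1 + (k + 1) = (k + 1) + 1 by ring, Nat.choose_succ_self_right]
    rw [e1]
    have e2 : 1 + (k + 1) = k + 2 := by ring
    rw [e2]
    simp
  constructor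
  · have h1 : (taylor h P - P).coeff (k + 1) ≠ 0 := by
      rw [hcoef]
      have : P.coeff (k + 2) ≠ 0 := by
        rw [← hk]; exact leadingCoeff_ne_zero.2 hP0
      have : ((k : ℤ) + 2) ≠ 0 := by positivity
      positivity
    have := le_natDegree_of_ne_zero h1
    omega
  · have hlt : (taylor h P - P).degree < (taylor h P).degree := by
      apply degree_sub_lt_left
      · rw [degree_eq_natDegree (by
          intro h1
          have := natDegree_taylor P h
          rw [h1, hk] at this; simp at this), natDegree_taylor, ← degree_eq_natDegree hP0]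
      · intro h1
        have := natDegree_taylor P h
        rw [h1, hk] at this; simp at this
      · simp [leadingCoeff_taylor]
    have h2 : (taylor h P).natDegree = k + 2 := by rw [natDegree_taylor, hk]
    rw [← h2]
    apply natDegree_lt_natDegree _ hlt
    intro h3
    have h1 : (taylor h P - P).coeff (k + 1) ≠ 0 := by
      rw [hcoef]
      have : P.coeff (k + 2) ≠ 0 := by
        rw [← hk]; exact leadingCoeff_ne_zero.2 hP0
      positivity
    rw [h3] at h1
    simp at h1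

section
variable (K : ℤ → H →ₗᵢ[ℝ] H) (h0 : ∀ f, K 0 f = f) (hadd : ∀ m n f, K (m + n) f = K m (K n f))
include h0 hadd

/-- polynomial averages of a vector orthogonal to all periodic vectors vanish -/
theorem poly_avg (g : H) (hg : g ∈ (Kinf K)ᗮ) (k : ℕ) :
    ∀ P : ℤ[X], P.natDegree = k + 1 →
    Tendsto (fun N : ℕ => (1 / (N : ℝ)) • ∑ n ∈ range N, K (P.eval (n : ℤ)) g) atTop (𝓝 0) := by
  induction k using Nat.strong_induction_on with
  | _ k ih =>
    intro P hP
    rcases k with _ | k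
    · have hP1 : P.natDegree ≤ 1 := by omega
      have hc : P.coeff 1 ≠ 0 := by
        have : P ≠ 0 := by intro h; rw [h] at hP; simp at hP
        have h1 : P.natDegree = 1 := by omega
        rw [← h1]; exact leadingCoeff_ne_zero.2 this
      have hev : ∀ n : ℕ, P.eval (n : ℤ) = P.coeff 1 * n + P.coeff 0 := by
        intro n
        conv_lhs => rw [eq_X_add_C_of_natDegree_le_one hP1]
        simp
      simp_rw [hev]
      exact lin_avg K h0 hadd _ _ g
        (Submodule.orthogonal_le (fixK_le_Kinf K h0 hadd hc) hg)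
    · apply vdc _ ‖g‖ (fun n => by rw [LinearIsometry.norm_map])
      intro h hh
      obtain ⟨d1, d2⟩ := taylor_sub_natDegree P k (by omega) (h : ℤ) (by exact_mod_cast hh.ne')
      obtain ⟨j, hj⟩ : ∃ j, (taylor (h : ℤ) P - P).natDegree = j + 1 :=
        ⟨(taylor (h : ℤ) P - P).natDegree - 1, by omega⟩
      have := ih j (by omega) _ hj
      have h2 : Tendsto (fun N : ℕ => ⟪(1 / (N : ℝ)) • ∑ n ∈ range N,
          K ((taylor (h : ℤ) P - P).eval (n : ℤ)) g, g⟫_ℝ) atTop (𝓝 ⟪(0 : H), g⟫_ℝ) :=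
        this.inner tendsto_const_nhds
      rw [inner_zero_left] at h2
      refine h2.congr (fun N => ?_)
      rw [real_inner_smul_left, sum_inner]
      congr 1
      apply Finset.sum_congr rfl
      intro n _
      rw [K_inner K h0 hadd]
      congr 3
      rw [eval_sub, taylor_eval]
      push_cast
      ring

/-- core inequality -/
theorem core (P : ℤ[X]) (hP : 0 < P.natDegree) (u f : H)
    (hz : ∀ n : ℤ, ⟪u, K (P.eval n) f⟫_ℝ = 0) (N : ℕ) (M : ℤ) :
    |⟪u, K (P.eval M) (PN K N f)⟫_ℝ| ≤ ‖u‖ * ‖Pinf K f - PN K N f‖ := by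
  set q : ℤ := ((N ! : ℕ) : ℤ) with hq
  have hq0 : q ≠ 0 := by rw [hq]; exact_mod_cast Nat.factorial_ne_zero N
  set R : ℤ[X] := P.comp (C q * X + C M) with hR
  have hRd : R.natDegree = P.natDegree := by
    rw [hR, natDegree_comp, natDegree_linear hq0, mul_one]
  have hRe : ∀ n : ℕ, R.eval (n : ℤ) = P.eval (q * n + M) := by
    intro n; rw [hR, eval_comp]; simp
  set a := PN K N f with ha
  set b := Pinf K f - a with hb
  set c := f - Pinf K f with hc
  have hfabc : f = a + b + c := by rw [hb, hc]; abel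
  have hcperp : c ∈ (Kinf K)ᗮ := Submodule.sub_starProjection_mem_orthogonal _
  have hav := poly_avg K h0 hadd c hcperp (R.natDegree - 1) R (by omega)
  have haK : ∀ n : ℕ, K (R.eval (n : ℤ)) a = K (P.eval M) a := by
    intro n
    rw [hRe]
    have h1 : q ∣ P.eval (q * n + M) - P.eval M := by
      refine dvd_trans ?_ (sub_dvd_eval_sub _ _ P)
      exact ⟨n, by ring⟩
    obtain ⟨t, ht⟩ := h1
    have h2 : P.eval (q * n + M) = P.eval M + q * t := by linarith
    rw [h2, hadd, fix_mul K h0 hadd q a (PN_fixed K h0 hadd N f)]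
  have hbound : ∀ n : ℕ, 0 < n → |⟪u, K (P.eval M) a⟫_ℝ| ≤
      ‖u‖ * ‖b‖ + ‖u‖ * ‖(1 / (n : ℝ)) • ∑ j ∈ range n, K (R.eval (j : ℤ)) c‖ := by
    intro n hn
    have hnR : (0 : ℝ) < n := by exact_mod_cast hn
    have e0 : ⟪u, (1 / (n : ℝ)) • ∑ j ∈ range n, K (R.eval (j : ℤ)) f⟫_ℝ = 0 := by
      rw [real_inner_smul_right, inner_sum]
      have : ∑ j ∈ range n, ⟪u, K (R.eval (j : ℤ)) f⟫_ℝ = 0 := by
        apply Finset.sum_eq_zero
        intro j _
        rw [hRe]
        exact hz _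
      rw [this, mul_zero]
    have e1 : (1 / (n : ℝ)) • ∑ j ∈ range n, K (R.eval (j : ℤ)) f =
        K (P.eval M) a + (1 / (n : ℝ)) • ∑ j ∈ range n, K (R.eval (j : ℤ)) b +
          (1 / (n : ℝ)) • ∑ j ∈ range n, K (R.eval (j : ℤ)) c := by
      conv_lhs => rw [hfabc]
      simp only [map_add, Finset.sum_add_distrib, smul_add]
      congr 2
      rw [Finset.sum_congr rfl (fun j _ => haK j), Finset.sum_const, card_range,
        ← Nat.cast_smul_eq_nsmul ℝ, smul_smul, one_div, inv_mul_cancel₀ hnR.ne', one_smul]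
    rw [e1, inner_add_right, inner_add_right] at e0
    have e2 : ⟪u, K (P.eval M) a⟫_ℝ =
        -⟪u, (1 / (n : ℝ)) • ∑ j ∈ range n, K (R.eval (j : ℤ)) b⟫_ℝ -
          ⟪u, (1 / (n : ℝ)) • ∑ j ∈ range n, K (R.eval (j : ℤ)) c⟫_ℝ := by linarith
    have e3 : ‖(1 / (n : ℝ)) • ∑ j ∈ range n, K (R.eval (j : ℤ)) b‖ ≤ ‖b‖ := by
      rw [norm_smul, Real.norm_eq_abs, abs_of_pos (by positivity)]
      have : ‖∑ j ∈ range n, K (R.eval (j : ℤ)) b‖ ≤ n * ‖b‖ := by
        calc _ ≤ ∑ j ∈ range n, ‖K (R.eval (j : ℤ)) b‖ := norm_sum_le _ _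
          _ = n * ‖b‖ := by simp [LinearIsometry.norm_map]
      calc (1 / (n : ℝ)) * ‖∑ j ∈ range n, K (R.eval (j : ℤ)) b‖ ≤ (1 / (n : ℝ)) * (n * ‖b‖) := by
            gcongr
        _ = ‖b‖ := by field_simp
    rw [e2]
    calc _ ≤ |⟪u, (1 / (n : ℝ)) • ∑ j ∈ range n, K (R.eval (j : ℤ)) b⟫_ℝ| +
          |⟪u, (1 / (n : ℝ)) • ∑ j ∈ range n, K (R.eval (j : ℤ)) c⟫_ℝ| := by
            have := abs_sub (-⟪u, (1 / (n : ℝ)) • ∑ j ∈ range n, K (R.eval (j : ℤ)) b⟫_ℝ)
              ⟪u, (1 / (n : ℝ)) • ∑ j ∈ range n, K (R.eval (j : ℤ)) c⟫_ℝ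
            rwa [abs_neg] at this
      _ ≤ ‖u‖ * ‖(1 / (n : ℝ)) • ∑ j ∈ range n, K (R.eval (j : ℤ)) b‖ +
          ‖u‖ * ‖(1 / (n : ℝ)) • ∑ j ∈ range n, K (R.eval (j : ℤ)) c‖ :=
            add_le_add (abs_real_inner_le_norm _ _) (abs_real_inner_le_norm _ _)
      _ ≤ _ := by gcongr
  have hlim : Tendsto (fun n : ℕ => ‖u‖ * ‖b‖ + ‖u‖ *
      ‖(1 / (n : ℝ)) • ∑ j ∈ range n, K (R.eval (j : ℤ)) c‖) atTop (𝓝 (‖u‖ * ‖b‖)) := by
    have := (hav.norm.const_mul ‖u‖).const_add (‖u‖ * ‖b‖)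
    simpa using this
  exact ge_of_tendsto hlim (eventually_atTop.2 ⟨1, fun n hn => hbound n hn⟩)

end

end Pool.Agent.W_cae956_h75
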