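import Mathlib
import Pool.Agent.W_cae956_h75.Proj

set_option autoImplicit false
set_option linter.unusedSectionVars false

open Finset Filter Topology MeasureTheory
open scoped InnerProductSpace Nat ENNReal

namespace Pool.Agent.W_cae956_h75

variable {Ω : Type*} [TopologicalSpace Ω] [MeasurableSpace Ω] [BorelSpace Ω] {ν : Measure Ω}
  [IsProbabilityMeasure ν]

theorem mp_zpow (T : Ω ≃ₜ Ω) (hT : MeasurePreserving T ν ν) (n : ℤ) :
    MeasurePreserving (⇑(T ^ n)) ν ν := by
  have hTs : MeasurePreserving (⇑(T⁻¹ : Ω ≃ₜ Ω)) ν ν := by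
    have : MeasurePreserving (⇑T.toMeasurableEquiv) ν ν := hT
    exact this.symm
  induction n using Int.induction_on with
  | zero => rw [zpow_zero]; exact MeasurePreserving.id ν
  | succ i ih =>
    rw [zpow_add_one]
    exact ih.comp hT
  | pred i ih =>
    rw [zpow_sub_one]
    exact ih.comp hTs

/-- Koopman operators -/
noncomputable def koop (T : Ω ≃ₜ Ω) (hT : MeasurePreserving T ν ν) (n : ℤ) :
    Lp ℝ 2 ν →ₗᵢ[ℝ] Lp ℝ 2 ν :=
  Lp.compMeasurePreservingₗᵢ ℝ (⇑(T ^ n)) (mp_zpow T hT n)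

variable (T : Ω ≃ₜ Ω) (hT : MeasurePreserving T ν ν)

theorem koop_coe (n : ℤ) (f : Lp ℝ 2 ν) : koop T hT n f =ᵐ[ν] f ∘ (⇑(T ^ n)) :=
  Lp.coeFn_compMeasurePreserving f (mp_zpow T hT n)

theorem koop_zero (f : Lp ℝ 2 ν) : koop T hT 0 f = f := by
  apply Lp.ext
  filter_upwards [koop_coe T hT 0 f] with x hx
  rw [hx]; simp

theorem koop_add (m n : ℤ) (f : Lp ℝ 2 ν) :
    koop T hT (m + n) f = koop T hT m (koop T hT n f) := by
  apply Lp.ext
  have h1 := koop_coe T hT (m + n) f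
  have h2 := koop_coe T hT m (koop T hT n f)
  have h3 := (mp_zpow T hT m).quasiMeasurePreserving.ae_eq (koop_coe T hT n f)
  filter_upwards [h1, h2, h3] with x hx1 hx2 hx3
  rw [hx1, hx2]
  simp only [Function.comp_apply] at hx3 ⊢
  rw [hx3]
  congr 1
  rw [add_comm, zpow_add]
  rfl

theorem koop_nonneg (n : ℤ) (f : Lp ℝ 2 ν) (hf : 0 ≤ f) : 0 ≤ koop T hT n f := by
  rw [← Lp.coeFn_nonneg] at *
  have h3 := (mp_zpow T hT n).quasiMeasurePreserving.ae hf
  filter_upwards [koop_coe T hT n f, h3] with x hx hx3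
  rw [hx]; exact hx3

theorem rin (a b : ℝ) : ⟪a, b⟫_ℝ = a * b := by
  simp [mul_comm]

theorem smul_nonneg_Lp (c : ℝ) (hc : 0 ≤ c) (f : Lp ℝ 2 ν) (hf : 0 ≤ f) : 0 ≤ c • f := by
  rw [← Lp.coeFn_nonneg] at *
  filter_upwards [hf, Lp.coeFn_smul c f] with x h1 h2
  rw [h2]
  exact mul_nonneg hc h1

theorem PN_nonneg (N : ℕ) (f : Lp ℝ 2 ν) (hf : 0 ≤ f) : 0 ≤ PN (koop T hT) N f := by
  have h1 := ContinuousLinearMap.tendsto_birkhoffAverage_orthogonalProjection
    (koop T hT (N ! : ℕ)).toContinuousLinearMap (LinearIsometry.norm_toContinuousLinearMap_le _) f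
  refine ge_of_tendsto' h1 (fun n => ?_)
  simp only [birkhoffAverage, birkhoffSum, _root_.id]
  apply smul_nonneg_Lp _ (by positivity)
  apply Finset.sum_nonneg
  intro i _
  rw [iter_eq _ (koop_zero T hT) (koop_add T hT)]
  exact koop_nonneg T hT _ f hf

theorem Pinf_nonneg (f : Lp ℝ 2 ν) (hf : 0 ≤ f) : 0 ≤ Pinf (koop T hT) f :=
  ge_of_tendsto' (PN_tendsto _ (koop_zero T hT) (koop_add T hT) f)
    (fun N => PN_nonneg T hT N f hf)

theorem inner_nonneg_of_nonneg (f g : Lp ℝ 2 ν) (hf : 0 ≤ f) (hg : 0 ≤ g) : 0 ≤ ⟪f, g⟫_ℝ := by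
  rw [L2.inner_def]
  apply integral_nonneg_of_ae
  rw [← Lp.coeFn_nonneg] at hf hg
  filter_upwards [hf, hg] with x h1 h2
  simp only [Pi.zero_apply] at h1 h2 ⊢
  rw [rin]
  exact mul_nonneg h1 h2

/-- indicator of a measurable set in `L²` -/
noncomputable def ind (s : Set Ω) (hs : MeasurableSet s) : Lp ℝ 2 ν :=
  indicatorConstLp 2 hs (measure_ne_top ν s) (1 : ℝ)

theorem ind_coe (s : Set Ω) (hs : MeasurableSet s) :
    (ind (ν := ν) s hs) =ᵐ[ν] s.indicator (fun _ => (1 : ℝ)) := indicatorConstLp_coeFn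

theorem ind_nonneg (s : Set Ω) (hs : MeasurableSet s) : 0 ≤ ind (ν := ν) s hs := by
  rw [← Lp.coeFn_nonneg]
  filter_upwards [ind_coe (ν := ν) s hs] with x hx
  rw [hx]
  exact Set.indicator_nonneg (fun _ _ => zero_le_one) x

theorem norm_ind_le (s : Set Ω) (hs : MeasurableSet s) : ‖ind (ν := ν) s hs‖ ≤ 1 := by
  unfold ind
  rw [norm_indicatorConstLp (by norm_num) (by norm_num)]
  simp only [norm_one, one_mul]
  apply Real.rpow_le_one measureReal_nonneg
  · exact measureReal_le_one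
  · norm_num

theorem Pinf_pos (V : Set Ω) (hV : MeasurableSet V) :
    ∀ᵐ x ∂ν, x ∈ V → 0 < (Pinf (koop T hT) (ind V hV)) x := by
  set ph := Pinf (koop T hT) (ind (ν := ν) V hV) with hph
  have hphm : Measurable (ph : Ω → ℝ) := (Lp.stronglyMeasurable ph).measurable
  set A : Set Ω := V ∩ {x | ph x ≤ 0} with hA
  have hAm : MeasurableSet A := hV.inter (measurableSet_le hphm measurable_const)
  set a := ind (ν := ν) A hAm with ha
  have ha0 : 0 ≤ a := ind_nonneg A hAm
  have hVA : 0 ≤ ind V hV - a := by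
    rw [← Lp.coeFn_nonneg]
    filter_upwards [ind_coe (ν := ν) V hV, ind_coe (ν := ν) A hAm, Lp.coeFn_sub (ind V hV) a]
      with x h1 h2 h3
    rw [h3, Pi.sub_apply, h1, h2, Pi.zero_apply]
    by_cases hx : x ∈ A
    · simp [hx, hx.1]
    · rw [Set.indicator_of_notMem hx, sub_zero]
      exact Set.indicator_nonneg (fun _ _ => zero_le_one) x
  have h1 : 0 ≤ ⟪Pinf (koop T hT) (ind V hV - a), a⟫_ℝ :=
    inner_nonneg_of_nonneg _ _ (Pinf_nonneg T hT _ hVA) ha0
  have h2 : Pinf (koop T hT) (ind V hV - a) = ph - Pinf (koop T hT) a := by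
    simp [hph, Pinf, map_sub]
  have h3 : ⟪ph, a⟫_ℝ ≤ 0 := by
    rw [L2.inner_def]
    apply integral_nonpos_of_ae
    filter_upwards [ind_coe (ν := ν) A hAm] with x hx
    rw [rin, ← ha] at *
    rw [hx]
    by_cases hxA : x ∈ A
    · simp only [Set.indicator_of_mem hxA, mul_one, Pi.zero_apply]
      exact hxA.2
    · simp [Set.indicator_of_notMem hxA]
  have h4 : ⟪Pinf (koop T hT) a, a⟫_ℝ = ‖Pinf (koop T hT) a‖ ^ 2 := by
    rw [← real_inner_self_eq_norm_sq]
    unfold Pinf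
    conv_rhs => rw [Submodule.inner_starProjection_left_eq_right]
    rw [Submodule.starProjection_eq_self_iff.2 (Submodule.starProjection_apply_mem _ _),
      ← Submodule.inner_starProjection_left_eq_right]
  have h5 : Pinf (koop T hT) a = 0 := by
    rw [h2, inner_sub_left, h4] at h1
    have : ‖Pinf (koop T hT) a‖ ^ 2 ≤ 0 := by linarith
    have := pow_eq_zero_iff (two_ne_zero) |>.1 (le_antisymm this (by positivity))
    exact norm_eq_zero.1 this
  -- the constant function 1 is fixed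
  set e := ind (ν := ν) Set.univ MeasurableSet.univ with he
  have he1 : e ∈ fixK (koop T hT) 1 := by
    rw [mem_fixK]
    apply Lp.ext
    have k1 := koop_coe T hT 1 e
    have k2 := (mp_zpow T hT 1).quasiMeasurePreserving.ae_eq (ind_coe (ν := ν) Set.univ .univ)
    filter_upwards [k1, k2, ind_coe (ν := ν) Set.univ MeasurableSet.univ] with x x1 x2 x3
    rw [x1, he, x3]
    simpa using x2
  have he2 : Pinf (koop T hT) e = e := by
    unfold Pinf
    rw [Submodule.starProjection_eq_self_iff]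
    exact fixK_le_Kinf _ (koop_zero T hT) (koop_add T hT) one_ne_zero he1
  have h6 : ⟪a, e⟫_ℝ = 0 := by
    rw [← he2]
    unfold Pinf
    rw [← Submodule.inner_starProjection_left_eq_right]
    change ⟪Pinf (koop T hT) a, e⟫_ℝ = 0
    rw [h5, inner_zero_left]
  have h7 : ⟪a, e⟫_ℝ = ν.real A := by
    rw [L2.inner_def]
    have : ∀ᵐ x ∂ν, ⟪a x, e x⟫_ℝ = A.indicator (fun _ => (1 : ℝ)) x := by
      filter_upwards [ind_coe (ν := ν) A hAm, ind_coe (ν := ν) Set.univ MeasurableSet.univ]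
        with x x1 x2
      rw [rin, ha, x1, he, x2]
      simp
    rw [integral_congr_ae this, integral_indicator_const _ hAm]
    simp
  have h8 : ν A = 0 := by
    rw [h6] at h7
    have := h7.symm
    rwa [measureReal_eq_zero_iff] at this
  have h9 : ∀ᵐ x ∂ν, x ∉ A := by
    rw [ae_iff]
    simpa using h8
  filter_upwards [h9] with x hx hxV
  by_contra hcon
  exact hx ⟨hxV, not_lt.1 hcon⟩

end Pool.Agent.W_cae956_h75
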