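import Mathlib
import Pool.Agent.W_cae956_h75.Koop

set_option autoImplicit false
set_option linter.unusedSectionVars false

open Finset Filter Topology MeasureTheory Polynomial
open scoped InnerProductSpace Nat ENNReal

namespace Pool.Agent.W_cae956_h75

variable {Ω : Type*} [TopologicalSpace Ω] [MeasurableSpace Ω] [BorelSpace Ω] {ν : Measure Ω}
  [IsProbabilityMeasure ν]

theorem inner_ind_zero (T : Ω ≃ₜ Ω) (hT : MeasurePreserving T ν ν) (U V : Set Ω)
    (hU : MeasurableSet U) (hV : MeasurableSet V) (n : ℤ)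
    (h : ∀ x ∈ U, (T ^ n) x ∉ V) :
    ⟪ind (ν := ν) U hU, koop T hT n (ind V hV)⟫_ℝ = 0 := by
  rw [L2.inner_def]
  apply integral_eq_zero_of_ae
  have k2 := (mp_zpow T hT n).quasiMeasurePreserving.ae_eq (ind_coe (ν := ν) V hV)
  filter_upwards [ind_coe (ν := ν) U hU, koop_coe T hT n (ind V hV), k2] with x h1 h2 h3
  rw [rin, h1, h2, h3, Pi.zero_apply]
  by_cases hx : x ∈ U
  · have := h x hx
    simp [Set.indicator_of_notMem this]
  · simp [Set.indicator_of_notMem hx]

/-- the measure theoretic form of the two-body theorem -/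
theorem l2_main (T : Ω ≃ₜ Ω) (hT : MeasurePreserving T ν ν) (P : ℤ[X]) (hP : 0 < P.natDegree)
    (d : ℕ) (U V : Fin d → Set Ω) (hUm : ∀ i, MeasurableSet (U i)) (hVm : ∀ i, MeasurableSet (V i))
    (n : Fin d → ℤ) (hU : ∀ x, ∃ i, x ∈ U i)
    (hUV : ∀ i, ∀ m : ℤ, ∀ x ∈ U i, (T ^ (P.eval m)) x ∉ V i)
    (hls : ∀ Q : ℕ, 0 < Q → ∃ (w : ℤ) (z : Fin d → ℤ), ∀ i, (Q : ℤ) ∣ P.eval (z i) - (w + n i)) :
    ν (⋂ i, (⇑(T ^ (n i))) ⁻¹' (V i)) = 0 := by
  by_contra hne
  set K := koop T hT with hK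
  have K0 := koop_zero T hT
  have Kadd := koop_add T hT
  set C : Set Ω := ⋂ i, (⇑(T ^ (n i))) ⁻¹' (V i) with hC
  have hCm : MeasurableSet C :=
    MeasurableSet.iInter (fun i => (mp_zpow T hT (n i)).measurable (hVm i))
  set f : Fin d → Lp ℝ 2 ν := fun i => ind (V i) (hVm i) with hf
  set u : Fin d → Lp ℝ 2 ν := fun i => ind (U i) (hUm i) with hu
  set G : Fin d → Lp ℝ 2 ν := fun i => K (n i) (Pinf K (f i)) with hG
  have hG0 : ∀ i, 0 ≤ G i := fun i =>
    koop_nonneg T hT _ _ (Pinf_nonneg T hT _ (ind_nonneg _ _))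
  have hGpos : ∀ᵐ x ∂ν, x ∈ C → ∀ i, 0 < G i x := by
    have : ∀ i, ∀ᵐ x ∂ν, x ∈ C → 0 < G i x := by
      intro i
      have h1 := (mp_zpow T hT (n i)).quasiMeasurePreserving.ae (Pinf_pos T hT (V i) (hVm i))
      filter_upwards [h1, koop_coe T hT (n i) (Pinf K (f i))] with x hx1 hx2 hxC
      rw [hG]
      simp only
      rw [hx2]
      exact hx1 (Set.mem_iInter.1 hxC i)
    have h2 := ae_all_iff.2 this
    filter_upwards [h2] with x hx hxC i
    exact hx i hxC
  have hGm : ∀ i, Measurable (G i : Ω → ℝ) := fun i => (Lp.stronglyMeasurable (G i)).measurable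
  -- lower bound on a set of positive measure
  obtain ⟨δ, hδ, hCδ⟩ : ∃ δ : ℝ, 0 < δ ∧ ν (C ∩ ⋂ i, {x | δ ≤ G i x}) ≠ 0 := by
    by_contra hcon
    push Not at hcon
    apply hne
    have hsub : C ⊆ (⋃ m : ℕ, C ∩ ⋂ i, {x | (1 / ((m : ℝ) + 1)) ≤ G i x}) ∪
        {x | ¬ (x ∈ C → ∀ i, 0 < G i x)} := by
      intro x hx
      by_cases hp : ∀ i, 0 < G i x
      · left
        obtain ⟨m, hm⟩ : ∃ m : ℕ, ∀ i, 1 / ((m : ℝ) + 1) ≤ G i x := by
          have : ∀ i, ∃ m : ℕ, 1 / ((m : ℝ) + 1) < G i x := fun i => exists_nat_one_div_lt (hp i)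
          choose m hm using this
          refine ⟨Finset.univ.sup m, fun i => ?_⟩
          refine le_trans ?_ (hm i).le
          have : (m i : ℝ) ≤ (Finset.univ.sup m : ℕ) := by
            exact_mod_cast Finset.le_sup (Finset.mem_univ i)
          gcongr
        exact Set.mem_iUnion.2 ⟨m, hx, Set.mem_iInter.2 hm⟩
      · right
        intro h
        exact hp (h hx)
    apply measure_mono_null hsub
    rw [measure_union_null_iff]
    refine ⟨measure_iUnion_null (fun m => ?_), ?_⟩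
    · exact hcon _ (by positivity)
    · exact hGpos
  set D : Set Ω := C ∩ ⋂ i, {x | δ ≤ G i x} with hD
  have hDm : MeasurableSet D :=
    hCm.inter (MeasurableSet.iInter (fun i => measurableSet_le measurable_const (hGm i)))
  have hDpos : 0 < ν.real D := by
    rw [measureReal_def]
    exact ENNReal.toReal_pos hCδ (measure_ne_top _ _)
  have hmain : ∀ N : ℕ, δ * ν.real D ≤ ∑ i, 2 * ‖Pinf K (f i) - PN K N (f i)‖ := by
    intro N
    obtain ⟨w, z, hwz⟩ := hls (N !) (Nat.factorial_pos N)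
    -- pointwise inequality
    have hpt : ∀ᵐ x ∂ν, δ * D.indicator (fun _ => (1 : ℝ)) x ≤
        ∑ i, ⟪K (-w) (u i) x, G i x⟫_ℝ := by
      have a1 : ∀ i, ∀ᵐ x ∂ν, K (-w) (u i) x =
          (U i).indicator (fun _ => (1 : ℝ)) ((T ^ (-w)) x) := by
        intro i
        have k2 := (mp_zpow T hT (-w)).quasiMeasurePreserving.ae_eq (ind_coe (ν := ν) (U i) (hUm i))
        filter_upwards [koop_coe T hT (-w) (u i), k2] with x h1 h2
        rw [h1]; exact h2
      have a1' := ae_all_iff.2 a1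
      have a2 : ∀ i, ∀ᵐ x ∂ν, 0 ≤ G i x := fun i => (Lp.coeFn_nonneg _).2 (hG0 i)
      have a2' := ae_all_iff.2 a2
      filter_upwards [a1', a2'] with x hx1 hx2
      have b0 : ∀ i, 0 ≤ ⟪K (-w) (u i) x, G i x⟫_ℝ := by
        intro i
        rw [rin, hx1]
        exact mul_nonneg (Set.indicator_nonneg (fun _ _ => zero_le_one) _) (hx2 i)
      by_cases hxD : x ∈ D
      · rw [Set.indicator_of_mem hxD, mul_one]
        obtain ⟨i, hi⟩ := hU ((T ^ (-w)) x)
        calc δ ≤ G i x := Set.mem_iInter.1 hxD.2 i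
          _ = ⟪K (-w) (u i) x, G i x⟫_ℝ := by
            rw [rin, hx1, Set.indicator_of_mem hi, one_mul]
          _ ≤ _ := Finset.single_le_sum (f := fun i => ⟪K (-w) (u i) x, G i x⟫_ℝ)
            (fun i _ => b0 i) (Finset.mem_univ i)
      · rw [Set.indicator_of_notMem hxD, mul_zero]
        exact Finset.sum_nonneg (fun i _ => b0 i)
    have hint : δ * ν.real D ≤ ∑ i, ⟪K (-w) (u i), G i⟫_ℝ := by
      have e1 : ∫ x, δ * D.indicator (fun _ => (1 : ℝ)) x ∂ν = δ * ν.real D := by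
        rw [integral_const_mul, integral_indicator_const _ hDm]
        simp
      have e2 : ∫ x, ∑ i, ⟪K (-w) (u i) x, G i x⟫_ℝ ∂ν = ∑ i, ⟪K (-w) (u i), G i⟫_ℝ := by
        rw [integral_finsetSum]
        · apply Finset.sum_congr rfl
          intro i _
          rw [L2.inner_def]
        · intro i _
          exact L2.integrable_inner _ _
      rw [← e1, ← e2]
      apply integral_mono_ae
      · exact ((integrable_const (1 : ℝ)).indicator hDm).const_mul δ
      · exact integrable_finsetSum _ (fun i _ => L2.integrable_inner _ _)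
      · exact hpt
    refine hint.trans (Finset.sum_le_sum (fun i _ => ?_))
    -- move the operators
    have c1 : ⟪K (-w) (u i), G i⟫_ℝ = ⟪u i, K (w + n i) (Pinf K (f i))⟫_ℝ := by
      have : G i = K (-w) (K (w + n i) (Pinf K (f i))) := by
        rw [← Kadd, hG]
        simp only
        congr 2; ring
      rw [this, LinearIsometry.inner_map_map]
    have c2 : K (w + n i) (PN K N (f i)) = K (P.eval (z i)) (PN K N (f i)) := by
      obtain ⟨t, ht⟩ := hwz i
      have : P.eval (z i) = (w + n i) + (N ! : ℕ) * t := by linarith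
      have h2 : K ((w + n i) + (N ! : ℕ) * t) (PN K N (f i)) =
          K (w + n i) (K ((N ! : ℕ) * t) (PN K N (f i))) := Kadd _ _ _
      rw [this, h2, fix_mul K K0 Kadd _ _ (PN_fixed K K0 Kadd N (f i))]
    have c3 := core K K0 Kadd P hP (u i) (f i)
      (fun m => inner_ind_zero T hT (U i) (V i) (hUm i) (hVm i) _ (hUV i m)) N (z i)
    have c4 : ‖u i‖ ≤ 1 := norm_ind_le _ _
    have c5 : ⟪u i, K (w + n i) (Pinf K (f i))⟫_ℝ =
        ⟪u i, K (P.eval (z i)) (PN K N (f i))⟫_ℝ +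
          ⟪u i, K (w + n i) (Pinf K (f i) - PN K N (f i))⟫_ℝ := by
      rw [← c2, ← inner_add_right, ← map_add]
      congr 2
      abel
    have c6 : ⟪u i, K (w + n i) (Pinf K (f i) - PN K N (f i))⟫_ℝ ≤
        ‖u i‖ * ‖Pinf K (f i) - PN K N (f i)‖ := by
      refine (real_inner_le_norm _ _).trans ?_
      rw [LinearIsometry.norm_map]
    have c7 : ‖u i‖ * ‖Pinf K (f i) - PN K N (f i)‖ ≤ ‖Pinf K (f i) - PN K N (f i)‖ := by
      have := norm_nonneg (Pinf K (f i) - PN K N (f i))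
      nlinarith
    rw [c1, c5]
    have := (abs_le.1 c3).2
    linarith
  have hlim : Tendsto (fun N : ℕ => ∑ i, 2 * ‖Pinf K (f i) - PN K N (f i)‖) atTop (𝓝 0) := by
    have : Tendsto (fun N : ℕ => ∑ i, 2 * ‖Pinf K (f i) - PN K N (f i)‖) atTop
        (𝓝 (∑ i : Fin d, (0 : ℝ))) := by
      apply tendsto_finsetSum
      intro i _
      have h1 := PN_tendsto K K0 Kadd (f i)
      have h2 : Tendsto (fun N => Pinf K (f i) - PN K N (f i)) atTop
          (𝓝 (Pinf K (f i) - Pinf K (f i))) := tendsto_const_nhds.sub h1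
      rw [sub_self] at h2
      have h3 := h2.norm.const_mul 2
      simpa using h3
    simpa using this
  have := ge_of_tendsto' hlim hmain
  have : 0 < δ * ν.real D := by positivity
  linarith

end Pool.Agent.W_cae956_h75
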