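import Mathlib

set_option autoImplicit false

open Finset Filter Topology MeasureTheory
open scoped ENNReal BoundedContinuousFunction

namespace Pool.Agent.W_cae956_h75

variable {X : Type*} [MetricSpace X] [CompactSpace X] [MeasurableSpace X] [BorelSpace X]

/-- empirical measures -/
noncomputable def emp (T : X → X) (x : X) (N : ℕ) : Measure X :=
  ((N : ℝ≥0∞) + 1)⁻¹ • ∑ n ∈ range (N + 1), Measure.dirac (T^[n] x)

instance emp_prob (T : X → X) (x : X) (N : ℕ) : IsProbabilityMeasure (emp T x N) := by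
  constructor
  simp only [emp, Measure.smul_apply, Measure.finsetSum_apply, smul_eq_mul]
  simp only [measure_univ, sum_const, card_range, nsmul_eq_mul, mul_one, Nat.cast_add, Nat.cast_one]
  apply ENNReal.inv_mul_cancel
  · simp
  · exact ENNReal.add_ne_top.2 ⟨ENNReal.natCast_ne_top N, ENNReal.one_ne_top⟩

theorem integral_emp (T : X → X) (x : X) (N : ℕ) (f : X →ᵇ ℝ) :
    ∫ y, f y ∂(emp T x N) = (1 / ((N : ℝ) + 1)) * ∑ n ∈ range (N + 1), f (T^[n] x) := by
  rw [emp, integral_smul_measure, integral_finsetSum_measure]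
  · simp only [integral_dirac, smul_eq_mul]
    congr 1
    rw [ENNReal.toReal_inv, one_div]
    congr 1
  · intro i _
    exact f.integrable _

theorem exists_invariant [Nonempty X] (T : X ≃ₜ X) :
    ∃ ν : Measure X, IsProbabilityMeasure ν ∧ MeasurePreserving T ν ν := by
  obtain ⟨x⟩ := ‹Nonempty X›
  let P : ℕ → ProbabilityMeasure X := fun N => ⟨emp T x N, inferInstance⟩
  let F : Ultrafilter (ProbabilityMeasure X) := (hyperfilter ℕ).map P
  have hF : Tendsto P (hyperfilter ℕ : Filter ℕ) (𝓝 F.lim) := F.le_nhds_lim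
  set ν : ProbabilityMeasure X := F.lim with hν
  have hint := ProbabilityMeasure.tendsto_iff_forall_integral_tendsto.1 hF
  have hyp : (hyperfilter ℕ : Filter ℕ) ≤ atTop := by
    rw [← Nat.cofinite_eq_atTop]; exact hyperfilter_le_cofinite
  refine ⟨ν, inferInstance, T.continuous.measurable, ?_⟩
  have : IsProbabilityMeasure (Measure.map T (ν : Measure X)) :=
    Measure.isProbabilityMeasure_map T.continuous.measurable.aemeasurable
  apply ext_of_forall_integral_eq_of_IsFiniteMeasure
  intro f
  rw [integral_map T.continuous.measurable.aemeasurable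
    f.continuous.measurable.aestronglyMeasurable]
  set g : X →ᵇ ℝ := f.compContinuous ⟨T, T.continuous⟩ with hg
  have h1 := hint f
  have h2 := hint g
  have h3 : Tendsto (fun N : ℕ => ∫ y, g y ∂(P N : Measure X) - ∫ y, f y ∂(P N : Measure X))
      (hyperfilter ℕ : Filter ℕ) (𝓝 0) := by
    have h4 : ∀ N : ℕ, ‖∫ y, g y ∂(P N : Measure X) - ∫ y, f y ∂(P N : Measure X)‖ ≤
        (1 / ((N : ℝ) + 1)) * (2 * ‖f‖) := by
      intro N
      change ‖∫ y, g y ∂(emp T x N) - ∫ y, f y ∂(emp T x N)‖ ≤ _
      rw [integral_emp, integral_emp, ← mul_sub]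
      have e1 : ∑ n ∈ range (N + 1), g ((⇑T)^[n] x) =
          ∑ n ∈ range (N + 1), f ((⇑T)^[n] x) + f ((⇑T)^[N + 1] x) - f x := by
        have a1 := Finset.sum_range_succ' (fun n => f ((⇑T)^[n] x)) (N + 1)
        have a2 := Finset.sum_range_succ (fun n => f ((⇑T)^[n] x)) (N + 1)
        have a3 : ∑ n ∈ range (N + 1), g ((⇑T)^[n] x) =
            ∑ n ∈ range (N + 1), f ((⇑T)^[n + 1] x) := by
          apply Finset.sum_congr rfl
          intro n _
          rw [Function.iterate_succ_apply']
          rfl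
        rw [a3]
        simp only [Function.iterate_zero, id_eq] at a1
        linarith
      rw [e1, norm_mul, Real.norm_eq_abs, abs_of_nonneg (by positivity)]
      apply mul_le_mul_of_nonneg_left _ (by positivity)
      have e2 : ∑ n ∈ range (N + 1), f ((⇑T)^[n] x) + f ((⇑T)^[N + 1] x) - f x -
          ∑ n ∈ range (N + 1), f ((⇑T)^[n] x) = f ((⇑T)^[N + 1] x) - f x := by ring
      rw [e2]
      calc _ ≤ ‖f ((⇑T)^[N + 1] x)‖ + ‖f x‖ := norm_sub_le _ _
        _ ≤ ‖f‖ + ‖f‖ := add_le_add (f.norm_coe_le_norm _) (f.norm_coe_le_norm _)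
        _ = 2 * ‖f‖ := by ring
    have h5 : Tendsto (fun N : ℕ => (1 / ((N : ℝ) + 1)) * (2 * ‖f‖)) atTop (𝓝 0) := by
      have := (tendsto_one_div_add_atTop_nhds_zero_nat (𝕜 := ℝ)).mul_const (2 * ‖f‖)
      simpa using this
    exact squeeze_zero_norm h4 (h5.mono_left hyp)
  have h6 := h2.sub h1
  have h7 := tendsto_nhds_unique h6 h3
  have h8 : ∫ y, g y ∂(ν : Measure X) = ∫ y, f y ∂(ν : Measure X) := by linarith
  exact h8

theorem exists_invariant_pos (T : X ≃ₜ X) (Hs : Set (X ≃ₜ X)) (hc : ∀ h ∈ Hs, h * T = T * h)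
    (hmin : ∀ x : X, Dense {y : X | ∃ h ∈ Hs, h x = y}) (C : Set X) (hC : IsOpen C)
    (hne : C.Nonempty) :
    ∃ ν : Measure X, IsProbabilityMeasure ν ∧ MeasurePreserving T ν ν ∧ ν C ≠ 0 := by
  have : Nonempty X := ⟨hne.some⟩
  obtain ⟨ν, hν, hT⟩ := exists_invariant T
  by_contra hcon
  push Not at hcon
  -- every translate of `C` is null
  have h1 : ∀ h ∈ Hs, ν (h ⁻¹' C) = 0 := by
    intro h hh
    have hp : IsProbabilityMeasure (Measure.map h ν) :=
      Measure.isProbabilityMeasure_map h.continuous.measurable.aemeasurable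
    have hinv : MeasurePreserving T (Measure.map h ν) (Measure.map h ν) := by
      refine ⟨T.continuous.measurable, ?_⟩
      rw [Measure.map_map T.continuous.measurable h.continuous.measurable]
      have : ⇑T ∘ ⇑h = ⇑h ∘ ⇑T := by
        have := hc h hh
        funext y
        have := congrArg (fun g : X ≃ₜ X => g y) this
        simpa using this.symm
      rw [this, ← Measure.map_map h.continuous.measurable T.continuous.measurable, hT.map_eq]
    have := hcon _ hp hinv
    rwa [Measure.map_apply h.continuous.measurable hC.measurableSet] at this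
  -- they cover `X`
  have hcov : (Set.univ : Set X) ⊆ ⋃ h : Hs, (h : X ≃ₜ X) ⁻¹' C := by
    intro x _
    obtain ⟨y, hyC, h, hh, rfl⟩ := (hmin x).inter_open_nonempty C hC hne
    exact Set.mem_iUnion.2 ⟨⟨h, hh⟩, hyC⟩
  obtain ⟨t, ht⟩ := isCompact_univ.elim_finite_subcover _
    (fun h : Hs => hC.preimage (h : X ≃ₜ X).continuous) hcov
  have h2 : ν Set.univ = 0 := by
    apply measure_mono_null ht
    rw [← Finset.set_biUnion_coe]
    rw [measure_biUnion_null_iff t.countable_toSet]
    intro h _
    exact h1 h h.2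
  simp at h2

end Pool.Agent.W_cae956_h75
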