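import Mathlib

set_option autoImplicit false

open Polynomial

namespace Pool.Agent.W_cae956_h75

/-- local solvability modulo every integer -/
def LS (P : ℤ[X]) : Prop :=
  ∀ d : ℕ, ∃ r : ℕ, 0 < r ∧ ∀ n : Fin d → ℤ, (∀ i, (r : ℤ) ∣ n i) →
    ∀ Q : ℕ, 0 < Q → ∃ (w : ℤ) (z : Fin d → ℤ), ∀ i, (Q : ℤ) ∣ P.eval (z i) - (w + n i)

/-- local solvability with nonsingular points for large primes -/
def LSLarge (P : ℤ[X]) : Prop :=
  ∀ d : ℕ, ∃ N : ℕ, ∀ q : ℕ, q.Prime → N < q → ∀ n : Fin d → ZMod q,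
      ∃ (w : ZMod q) (z : Fin d → ZMod q), ∀ i,
        (P.map (Int.castRingHom (ZMod q))).eval (z i) = w + n i ∧
        ((derivative P).map (Int.castRingHom (ZMod q))).eval (z i) ≠ 0

end Pool.Agent.W_cae956_h75
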