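import Mathlib

set_option autoImplicit false

/-!
# Translates of a finite set into the k-th powers modulo a large prime

For fixed `d` and `k`, all sufficiently large primes `q` and all `m : Fin d → ZMod q` some translate
`t + m i` consists of nonzero `k`-th powers.  Proof with the Hales-Jewett theorem.
-/

namespace Pool.Agent.W_cae956_h75

/-- Representatives of the cosets of the `k`-th powers. -/
theorem HJ_coset_reps (q k : ℕ) [Fact q.Prime] (hk : 0 < k) :
    ∃ g : Fin k → ZMod q, (∀ j, g j ≠ 0) ∧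
      ∀ x : ZMod q, x ≠ 0 → ∃ j, ∃ y : ZMod q, y ≠ 0 ∧ x = g j * y ^ k := by
  obtain ⟨u, hu⟩ := IsCyclic.exists_generator (α := (ZMod q)ˣ)
  refine ⟨fun j => ((u ^ (j : ℕ) : (ZMod q)ˣ) : ZMod q), fun j => Units.ne_zero _, ?_⟩
  intro x hx
  obtain ⟨n, hn⟩ := Subgroup.mem_zpowers_iff.1 (hu (Units.mk0 x hx))
  have hk' : (0 : ℤ) < k := by exact_mod_cast hk
  have h1 : 0 ≤ n % (k : ℤ) := Int.emod_nonneg _ hk'.ne'
  have h2 : n % (k : ℤ) < k := Int.emod_lt_of_pos _ hk'
  obtain ⟨j, hj⟩ := Int.eq_ofNat_of_zero_le h1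
  have hjk : j < k := by
    rw [hj] at h2
    exact_mod_cast h2
  refine ⟨⟨j, hjk⟩, ((u ^ (n / (k : ℤ)) : (ZMod q)ˣ) : ZMod q), Units.ne_zero _, ?_⟩
  have h3 : Units.mk0 x hx = u ^ j * (u ^ (n / (k : ℤ))) ^ k := by
    rw [← hn, ← zpow_natCast, ← zpow_natCast, ← zpow_mul, ← zpow_add, ← hj]
    congr 1
    have := Int.emod_add_mul_ediv n (k : ℤ)
    rw [mul_comm (n / (k : ℤ)) (k : ℤ)]
    exact this.symm
  have h4 := congrArg (fun v : (ZMod q)ˣ => (v : ZMod q)) h3
  simpa using h4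

theorem HJ_aux (d k : ℕ) (hk : 0 < k) : ∃ B : ℕ, ∀ q : ℕ, q.Prime → B < q →
    ∀ m : Fin d → ZMod q, ∃ t : ZMod q, ∀ i, ∃ y : ZMod q, y ≠ 0 ∧ y ^ k = t + m i := by
  classical
  obtain ⟨ι, hι, hHJ⟩ :=
    Combinatorics.Line.exists_mono_in_high_dimension (Fin k × Fin d) (Option (Fin k))
  refine ⟨Fintype.card ι, fun q hq hB m => ?_⟩
  have : Fact q.Prime := ⟨hq⟩
  obtain ⟨g, hg0, hg⟩ := HJ_coset_reps q k hk
  -- the colouring of `ZMod q`
  obtain ⟨col, hcol0, hcol1⟩ : ∃ col : ZMod q → Option (Fin k),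
      (∀ x, col x = none → x = 0) ∧
      ∀ x j, col x = some j → ∃ y : ZMod q, y ≠ 0 ∧ x = g j * y ^ k := by
    refine ⟨fun x => if h : x = 0 then none else some (hg x h).choose, ?_, ?_⟩
    · intro x hx
      by_contra h
      simp [h] at hx
    · intro x j hx
      by_cases h : x = 0
      · simp [h] at hx
      · simp only [h, dif_neg, not_false_iff, Option.some.injEq] at hx
        have := (hg x h).choose_spec
        rw [hx] at this
        exact this
  obtain ⟨l, c, hc⟩ := hHJ (fun v => col (∑ i, g (v i).1 * m (v i).2))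
  set s0 : Finset ι := Finset.univ.filter (fun i => l.idxFun i = none) with hs0
  set b : ZMod q := ∑ i ∈ Finset.univ.filter (fun i => ¬ l.idxFun i = none),
    (match l.idxFun i with
      | none => 0
      | some a => g a.1 * m a.2) with hb
  have hsum : ∀ a : Fin k × Fin d, (∑ i, g ((l a i)).1 * m ((l a i)).2) =
      b + (s0.card : ZMod q) * (g a.1 * m a.2) := by
    intro a
    rw [← Finset.sum_filter_add_sum_filter_not Finset.univ (fun i => l.idxFun i = none), add_comm]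
    congr 1
    · rw [hb]
      refine Finset.sum_congr rfl fun i hi => ?_
      have hi' := (Finset.mem_filter.1 hi).2
      obtain ⟨a', ha'⟩ := Option.ne_none_iff_exists'.1 hi'
      show g (((l.idxFun i).getD a)).1 * m (((l.idxFun i).getD a)).2 = _
      rw [ha']
      rfl
    · rw [← hs0, ← nsmul_eq_mul, ← Finset.sum_const]
      refine Finset.sum_congr rfl fun i hi => ?_
      have hi' := (Finset.mem_filter.1 hi).2
      show g (((l.idxFun i).getD a)).1 * m (((l.idxFun i).getD a)).2 = _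
      rw [hi']
      rfl
  have hn0 : (s0.card : ZMod q) ≠ 0 := by
    intro h
    rw [ZMod.natCast_eq_zero_iff] at h
    have h1 : s0.card ≤ Fintype.card ι := Finset.card_le_univ _
    have h2 : 0 < s0.card := by
      obtain ⟨i, hi⟩ := l.proper
      exact Finset.card_pos.2 ⟨i, Finset.mem_filter.2 ⟨Finset.mem_univ _, hi⟩⟩
    exact absurd (Nat.le_of_dvd h2 h) (by omega)
  obtain ⟨n0, hn0'⟩ : ∃ n0 : ZMod q, n0 = (s0.card : ZMod q) := ⟨_, rfl⟩
  rw [← hn0'] at hsum hn0
  have hc' : ∀ a : Fin k × Fin d, col (b + n0 * (g a.1 * m a.2)) = c := by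
    intro a
    rw [← hsum a]
    exact hc a
  cases c with
  | none =>
    have h1 : ∀ i i' : Fin d, m i = m i' := by
      intro i i'
      have e1 := hcol0 _ (hc' (⟨0, hk⟩, i))
      have e2 := hcol0 _ (hc' (⟨0, hk⟩, i'))
      have e3 : n0 * (g ⟨0, hk⟩ * m i) = n0 * (g ⟨0, hk⟩ * m i') := by
        have := e1.trans e2.symm
        simpa using this
      exact mul_left_cancel₀ (hg0 _) (mul_left_cancel₀ hn0 e3)
    rcases Nat.eq_zero_or_pos d with hd | hd
    · subst hd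
      exact ⟨0, fun i => i.elim0⟩
    · refine ⟨1 - m ⟨0, hd⟩, fun i => ⟨1, one_ne_zero, ?_⟩⟩
      rw [h1 i ⟨0, hd⟩]
      simp
  | some j0 =>
    obtain ⟨j, y, hy, hj⟩ := hg (g j0 * n0⁻¹) (mul_ne_zero (hg0 _) (inv_ne_zero hn0))
    have hj' : n0 * g j * y ^ k = g j0 := by
      have : g j0 = n0 * (g j0 * n0⁻¹) := by field_simp
      rw [this, hj]
      ring
    refine ⟨b / (n0 * g j), fun i => ?_⟩
    obtain ⟨Y, hY, hYe⟩ := hcol1 _ _ (hc' (j, i))
    refine ⟨Y * y, mul_ne_zero hY hy, ?_⟩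
    have h5 : n0 * g j ≠ 0 := mul_ne_zero hn0 (hg0 _)
    have h6 : n0 * g j * ((Y * y) ^ k) = n0 * g j * (b / (n0 * g j) + m i) := by
      rw [mul_add, mul_div_cancel₀ _ h5, mul_pow]
      calc n0 * g j * (Y ^ k * y ^ k) = (n0 * g j * y ^ k) * Y ^ k := by ring
        _ = g j0 * Y ^ k := by rw [hj']
        _ = b + n0 * (g j * m i) := hYe.symm
        _ = b + n0 * g j * m i := by ring
    exact mul_left_cancel₀ h5 h6

/-- For large primes some translate of every `d`-tuple consists of nonzero `k`-th powers. -/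
theorem hj_powers (d k : ℕ) (hk : 0 < k) : ∃ N : ℕ, ∀ q : ℕ, q.Prime → N < q →
    ∀ n : Fin d → ZMod q, ∃ (w : ZMod q) (y : Fin d → ZMod q), ∀ i, y i ≠ 0 ∧ (y i) ^ k = w + n i := by
  obtain ⟨B, hB⟩ := HJ_aux d k hk
  refine ⟨B, fun q hq hq2 n => ?_⟩
  obtain ⟨t, ht⟩ := hB q hq hq2 n
  choose y hy using ht
  exact ⟨t, y, hy⟩

end Pool.Agent.W_cae956_h75
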