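import Mathlib
import Pool.Agent.W_cae956_h75.Defs
import Pool.Agent.W_cae956_h75.HJ

set_option autoImplicit false

/-!
# Local solvability
-/

open Polynomial

namespace Pool.Agent.W_cae956_h75

/-- From a `q`-adic near-root to solutions modulo `q ^ e`. -/
theorem LS_hensel (P : ℤ[X]) (q : ℕ) [hq : Fact q.Prime] (w m z0 : ℤ)
    (h : ‖((P.eval z0 - (w + m) : ℤ) : ℤ_[q])‖ < ‖(((derivative P).eval z0 : ℤ) : ℤ_[q])‖ ^ 2)
    (e : ℕ) : ∃ z : ℤ, ((q ^ e : ℕ) : ℤ) ∣ P.eval z - (w + m) := by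
  set F : ℤ[X] := P - C (w + m) with hF
  have hFe : ∀ x : ℤ, F.aeval (x : ℤ_[q]) = ((P.eval x - (w + m) : ℤ) : ℤ_[q]) := by
    intro x
    have h1 : (x : ℤ_[q]) = algebraMap ℤ ℤ_[q] x := by simp
    rw [h1, Polynomial.aeval_algebraMap_apply, hF]
    simp
  have hFd : F.derivative.aeval (z0 : ℤ_[q]) = (((derivative P).eval z0 : ℤ) : ℤ_[q]) := by
    have h1 : (z0 : ℤ_[q]) = algebraMap ℤ ℤ_[q] z0 := by simp
    rw [h1, Polynomial.aeval_algebraMap_apply, hF]
    simp
  obtain ⟨z, hz, _⟩ := hensels_lemma (F := F) (a := (z0 : ℤ_[q])) (by rw [hFe, hFd]; exact h)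
  refine ⟨(PadicInt.appr z e : ℕ), ?_⟩
  have h2 := PadicInt.appr_spec e z
  rw [Ideal.mem_span_singleton] at h2
  have h3 : (z - ((PadicInt.appr z e : ℕ) : ℤ_[q])) ∣
      F.aeval z - F.aeval ((PadicInt.appr z e : ℕ) : ℤ_[q]) := by
    rw [← Polynomial.eval_map_algebraMap, ← Polynomial.eval_map_algebraMap]
    exact Polynomial.sub_dvd_eval_sub _ _ _
  have h4 : ((q : ℤ_[q]) ^ e) ∣ ((P.eval ((PadicInt.appr z e : ℕ) : ℤ) - (w + m) : ℤ) : ℤ_[q]) := by
    have h5 := h2.trans h3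
    rw [hz, zero_sub, dvd_neg] at h5
    have h6 := hFe ((PadicInt.appr z e : ℕ) : ℤ)
    rw [Int.cast_natCast] at h6
    rwa [h6] at h5
  have h7 := (PadicInt.norm_le_pow_iff_mem_span_pow
    ((P.eval ((PadicInt.appr z e : ℕ) : ℤ) - (w + m) : ℤ) : ℤ_[q]) e).2
    (Ideal.mem_span_singleton.2 h4)
  have h8 := (PadicInt.norm_int_le_pow_iff_dvd).1 h7
  exact_mod_cast h8

/-- Chinese remainder theorem for integers. -/
theorem LS_crt (a b : ℕ) (h : Nat.Coprime a b) : ∃ f : ℤ → ℤ → ℤ, ∀ x y,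
    (a : ℤ) ∣ f x y - x ∧ (b : ℤ) ∣ f x y - y := by
  obtain ⟨u, v, huv⟩ := Nat.isCoprime_iff_coprime.2 h
  refine ⟨fun x y => x * (v * b) + y * (u * a), fun x y => ⟨⟨u * (y - x), ?_⟩, ⟨v * (x - y), ?_⟩⟩⟩
  · have : v * (b : ℤ) = 1 - u * a := by linarith
    rw [this]
    ring
  · have : u * (a : ℤ) = 1 - v * b := by linarith
    rw [this]
    ring

/-- Gluing of solutions modulo prime powers. -/
theorem LS_glue (P : ℤ[X]) (d : ℕ) (n : Fin d → ℤ)
    (h : ∀ q e : ℕ, q.Prime → ∃ (w : ℤ) (z : Fin d → ℤ), ∀ i,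
      ((q ^ e : ℕ) : ℤ) ∣ P.eval (z i) - (w + n i)) (Q : ℕ) :
    0 < Q → ∃ (w : ℤ) (z : Fin d → ℤ), ∀ i, (Q : ℤ) ∣ P.eval (z i) - (w + n i) := by
  induction Q using Nat.recOnPosPrimePosCoprime with
  | prime_pow q e hq he => exact fun _ => h q e hq
  | zero => exact fun h0 => absurd h0 (lt_irrefl 0)
  | one => exact fun _ => ⟨0, fun _ => 0, fun i => by simp⟩
  | coprime a b ha hb hab iha ihb =>
    intro _
    obtain ⟨w1, z1, h1⟩ := iha (by omega)
    obtain ⟨w2, z2, h2⟩ := ihb (by omega)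
    obtain ⟨f, hf⟩ := LS_crt a b hab
    refine ⟨f w1 w2, fun i => f (z1 i) (z2 i), fun i => ?_⟩
    have hd1 : (a : ℤ) ∣ P.eval (f (z1 i) (z2 i)) - (f w1 w2 + n i) := by
      have e1 := ((hf (z1 i) (z2 i)).1).trans (Polynomial.sub_dvd_eval_sub _ _ P)
      have e2 := (hf w1 w2).1
      have e3 := dvd_sub (dvd_add e1 (h1 i)) e2
      have e4 : P.eval (f (z1 i) (z2 i)) - (f w1 w2 + n i) =
          P.eval (f (z1 i) (z2 i)) - P.eval (z1 i) + (P.eval (z1 i) - (w1 + n i)) -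
            (f w1 w2 - w1) := by ring
      rwa [e4]
    have hd2 : (b : ℤ) ∣ P.eval (f (z1 i) (z2 i)) - (f w1 w2 + n i) := by
      have e1 := ((hf (z1 i) (z2 i)).2).trans (Polynomial.sub_dvd_eval_sub _ _ P)
      have e2 := (hf w1 w2).2
      have e3 := dvd_sub (dvd_add e1 (h2 i)) e2
      have e4 : P.eval (f (z1 i) (z2 i)) - (f w1 w2 + n i) =
          P.eval (f (z1 i) (z2 i)) - P.eval (z2 i) + (P.eval (z2 i) - (w2 + n i)) -
            (f w1 w2 - w2) := by ring
      rwa [e4]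
    rw [Nat.cast_mul]
    exact IsCoprime.mul_dvd (Nat.isCoprime_iff_coprime.2 hab) hd1 hd2

/-- A nonconstant polynomial has a point with nonzero derivative. -/
theorem LS_exists_deriv (P : ℤ[X]) (hP : 0 < P.natDegree) : ∃ z0 : ℤ, (derivative P).eval z0 ≠ 0 := by
  by_contra hcon
  push Not at hcon
  have h1 : derivative P = 0 := Polynomial.funext fun x => by rw [hcon x, eval_zero]
  have h2 := Polynomial.derivative_eq_zero.1 h1
  omega

theorem ls_of_large (P : ℤ[X]) (hP : 0 < P.natDegree) (h : LSLarge P) : LS P := by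
  intro d
  obtain ⟨N, hN⟩ := h d
  obtain ⟨z0, hz0⟩ := LS_exists_deriv P hP
  refine ⟨((derivative P).eval z0).natAbs ^ 2 * N.factorial, ?_, ?_⟩
  · have h1 : 0 < ((derivative P).eval z0).natAbs := Int.natAbs_pos.2 hz0
    have h2 := N.factorial_pos
    positivity
  intro n hn Q hQ
  refine LS_glue P d n ?_ Q hQ
  intro q e hq
  have hq' : Fact q.Prime := ⟨hq⟩
  by_cases hqN : q ≤ N
  · refine ⟨P.eval z0, ?_⟩
    have key : ∀ i, ∃ z : ℤ, ((q ^ e : ℕ) : ℤ) ∣ P.eval z - (P.eval z0 + n i) := by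
      intro i
      refine LS_hensel P q (P.eval z0) (n i) z0 ?_ e
      obtain ⟨c, hc⟩ := hn i
      have e1 : P.eval z0 - (P.eval z0 + n i) =
          -(((derivative P).eval z0) ^ 2 * ((N.factorial : ℕ) : ℤ) * c) := by
        rw [hc]
        push_cast
        rw [sq_abs]
        ring
      rw [e1]
      push_cast
      rw [norm_neg, norm_mul, norm_mul, norm_pow]
      have h3 : ‖((N.factorial : ℕ) : ℤ_[q])‖ < 1 := by
        have := (PadicInt.norm_int_lt_one_iff_dvd (p := q) ((N.factorial : ℕ) : ℤ)).2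
          (by exact_mod_cast (Nat.Prime.dvd_factorial hq).2 hqN)
        simpa using this
      have h4 : 0 < ‖(((derivative P).eval z0 : ℤ) : ℤ_[q])‖ := by
        rw [norm_pos_iff]
        exact_mod_cast hz0
      have h5 : ‖(c : ℤ_[q])‖ ≤ 1 := PadicInt.norm_le_one _
      have h6 : 0 ≤ ‖((N.factorial : ℕ) : ℤ_[q])‖ := norm_nonneg _
      have h7 : ‖((N.factorial : ℕ) : ℤ_[q])‖ * ‖(c : ℤ_[q])‖ < 1 :=
        lt_of_le_of_lt (mul_le_of_le_one_right h6 h5) h3
      have h8 : 0 < ‖(((derivative P).eval z0 : ℤ) : ℤ_[q])‖ ^ 2 := by positivity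
      calc ‖(((derivative P).eval z0 : ℤ) : ℤ_[q])‖ ^ 2 * ‖((N.factorial : ℕ) : ℤ_[q])‖ *
            ‖(c : ℤ_[q])‖
          = ‖(((derivative P).eval z0 : ℤ) : ℤ_[q])‖ ^ 2 *
            (‖((N.factorial : ℕ) : ℤ_[q])‖ * ‖(c : ℤ_[q])‖) := by ring
        _ < ‖(((derivative P).eval z0 : ℤ) : ℤ_[q])‖ ^ 2 * 1 := by
            exact mul_lt_mul_of_pos_left h7 h8
        _ = ‖(((derivative P).eval z0 : ℤ) : ℤ_[q])‖ ^ 2 := mul_one _
    choose z hz using key
    exact ⟨z, hz⟩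
  · push Not at hqN
    obtain ⟨wq, zq, hzq⟩ := hN q hq hqN (fun i => ((n i : ℤ) : ZMod q))
    obtain ⟨w, hw⟩ := ZMod.intCast_surjective wq
    refine ⟨w, ?_⟩
    have key : ∀ i, ∃ z : ℤ, ((q ^ e : ℕ) : ℤ) ∣ P.eval z - (w + n i) := by
      intro i
      obtain ⟨x, hx⟩ := ZMod.intCast_surjective (zq i)
      obtain ⟨h1, h2⟩ := hzq i
      rw [← hx, ← hw] at h1
      rw [← hx] at h2
      refine LS_hensel P q w (n i) x ?_ e
      have e1 : (q : ℤ) ∣ P.eval x - (w + n i) := by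
        rw [← ZMod.intCast_zmod_eq_zero_iff_dvd]
        rw [← eq_intCast (Int.castRingHom (ZMod q)) x, Polynomial.eval_map_apply] at h1
        push_cast
        rw [sub_eq_zero]
        simpa using h1
      have e2 : ¬ (q : ℤ) ∣ (derivative P).eval x := by
        rw [← ZMod.intCast_zmod_eq_zero_iff_dvd]
        rw [← eq_intCast (Int.castRingHom (ZMod q)) x, Polynomial.eval_map_apply] at h2
        simpa using h2
      have e3 := (PadicInt.norm_int_lt_one_iff_dvd (p := q) _).2 e1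
      have e4 : ‖(((derivative P).eval x : ℤ) : ℤ_[q])‖ = 1 := by
        refine le_antisymm (PadicInt.norm_le_one _) ?_
        by_contra hcon
        push Not at hcon
        exact e2 ((PadicInt.norm_int_lt_one_iff_dvd (p := q) _).1 hcon)
      rw [e4, one_pow]
      exact e3
    choose z hz using key
    exact ⟨z, hz⟩

theorem LS_pow_eval {F : Type} [Field F] (P : F[X]) (c A t s B : F) (k : ℕ)
    (hP : C c * P = C A * (C t * X + C s) ^ k + C B) (z : F) :
    c * P.eval z = A * (t * z + s) ^ k + B ∧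
      c * (derivative P).eval z = A * (k * (t * z + s) ^ (k - 1) * t) := by
  constructor
  · have h1 := congrArg (fun Q : F[X] => Q.eval z) hP
    simpa using h1
  · have h1 := congrArg (fun Q : F[X] => (derivative Q).eval z) hP
    simpa [derivative_pow] using h1

theorem lsLarge_of_power (P : ℤ[X]) (c A t s B : ℤ) (k : ℕ) (hk : 0 < k) (hc : c ≠ 0)
    (hA : A ≠ 0) (ht : t ≠ 0) (hP : C c * P = C A * (C t * X + C s) ^ k + C B) : LSLarge P := by
  intro d
  obtain ⟨N, hN⟩ := hj_powers d k hk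
  refine ⟨N + (c.natAbs + A.natAbs + t.natAbs + k), fun q hq hqN n => ?_⟩
  have hq' : Fact q.Prime := ⟨hq⟩
  have hne : ∀ x : ℤ, x ≠ 0 → x.natAbs < q → (x : ZMod q) ≠ 0 := by
    intro x hx hxq h0
    rw [ZMod.intCast_zmod_eq_zero_iff_dvd] at h0
    have h1 := Int.natCast_dvd.1 h0
    exact absurd (Nat.le_of_dvd (Int.natAbs_pos.2 hx) h1) (by omega)
  have hc' : (c : ZMod q) ≠ 0 := hne c hc (by omega)
  have hA' : (A : ZMod q) ≠ 0 := hne A hA (by omega)
  have ht' : (t : ZMod q) ≠ 0 := hne t ht (by omega)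
  have hk' : (k : ZMod q) ≠ 0 := by
    have := hne (k : ℤ) (by exact_mod_cast hk.ne') (by simp; omega)
    simpa using this
  obtain ⟨W, y, hy⟩ := hN q hq (by omega) (fun i => n i * c / A)
  have hPq : C (c : ZMod q) * P.map (Int.castRingHom (ZMod q)) =
      C (A : ZMod q) * (C (t : ZMod q) * X + C (s : ZMod q)) ^ k + C (B : ZMod q) := by
    have h1 := congrArg (Polynomial.map (Int.castRingHom (ZMod q))) hP
    rw [Polynomial.map_mul, Polynomial.map_add, Polynomial.map_mul, Polynomial.map_pow,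
      Polynomial.map_add, Polynomial.map_mul, Polynomial.map_X, Polynomial.map_C, Polynomial.map_C,
      Polynomial.map_C, Polynomial.map_C, Polynomial.map_C] at h1
    exact h1
  have hPe := fun z => (LS_pow_eval _ _ _ _ _ _ k hPq z).1
  have hPd := fun z => (LS_pow_eval _ _ _ _ _ _ k hPq z).2
  rw [derivative_map] at hPd
  refine ⟨(A * W + B) / c, fun i => (y i - s) / t, fun i => ?_⟩
  have hz : (t : ZMod q) * ((y i - s) / t) + s = y i := by
    field_simp
    ring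
  obtain ⟨h1, h2⟩ := hy i
  constructor
  · have h3 := hPe ((y i - s) / t)
    rw [hz, h2] at h3
    apply mul_left_cancel₀ hc'
    rw [h3]
    field_simp
    ring
  · intro h3
    have h4 := hPd ((y i - s) / t)
    rw [h3, mul_zero, hz] at h4
    have h5 : (A : ZMod q) * ((k : ZMod q) * (y i) ^ (k - 1) * t) ≠ 0 :=
      mul_ne_zero hA' (mul_ne_zero (mul_ne_zero hk' (pow_ne_zero _ h1)) ht')
    exact h5 h4.symm

end Pool.Agent.W_cae956_h75
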