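import Mathlib
import Pool.Agent.W_cae956_h75.L2
import Pool.Agent.W_cae956_h75.Inv
import Pool.Agent.W_cae956_h75.LS

set_option autoImplicit false

/-!
# The two-body theorem and its consequence for generic points
-/

open Filter Topology MeasureTheory Polynomial

namespace Pool.Agent.W_cae956_h75

variable {E : Type*} [MetricSpace E] [CompactSpace E]

omit [CompactSpace E] in
theorem commute_zpow (T g : E ≃ₜ E) (h : g * T = T * g) (n : ℤ) (x : E) :
    g ((T ^ n) x) = (T ^ n) (g x) := by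
  have h1 : Commute g T := h
  have h2 : g * T ^ n = T ^ n * g := (h1.zpow_right n).eq
  have h3 := congrArg (fun f : E ≃ₜ E => f x) h2
  simpa using h3

theorem two_body (T : E ≃ₜ E) (Hs : Set (E ≃ₜ E)) (hc : ∀ h ∈ Hs, h * T = T * h)
    (hmin : ∀ x : E, Dense {y : E | ∃ h ∈ Hs, h x = y})
    (htt : ∀ r : ℕ, 0 < r → ∃ y : E, Dense (Set.range fun n : ℤ => (T ^ ((r : ℤ) * n)) y))
    (P : ℤ[X]) (hP : 0 < P.natDegree) (hLS : LS P)
    (U V : Set E) (hU : IsOpen U) (hUne : U.Nonempty) (hV : IsOpen V) (hVne : V.Nonempty) :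
    ∃ n : ℤ, ∃ x ∈ U, (T ^ (P.eval n)) x ∈ V := by
  let _ : MeasurableSpace E := borel E
  have _ : BorelSpace E := ⟨rfl⟩
  by_contra hcon
  push Not at hcon
  -- a finite cover by translates
  have hcov : (Set.univ : Set E) ⊆ ⋃ h : Hs, (h : E ≃ₜ E) ⁻¹' U := by
    intro x _
    obtain ⟨y, hyU, h, hh, rfl⟩ := (hmin x).inter_open_nonempty U hU hUne
    exact Set.mem_iUnion.2 ⟨⟨h, hh⟩, hyU⟩
  obtain ⟨t, ht⟩ := isCompact_univ.elim_finite_subcover _
    (fun h : Hs => hU.preimage (h : E ≃ₜ E).continuous) hcov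
  let e := t.equivFin.symm
  let g : Fin t.card → (E ≃ₜ E) := fun i => ((e i : t) : Hs)
  have hg : ∀ i, g i * T = T * g i := fun i => hc _ ((e i : t) : Hs).2
  have hgU : ∀ x : E, ∃ i, x ∈ (g i) ⁻¹' U := by
    intro x
    obtain ⟨h, hh⟩ := Set.mem_iUnion.1 (ht (Set.mem_univ x))
    obtain ⟨hht, hx⟩ := Set.mem_iUnion.1 hh
    refine ⟨t.equivFin ⟨h, hht⟩, ?_⟩
    simp only [g, e, Equiv.symm_apply_apply]
    exact hx
  obtain ⟨r, hr, hr2⟩ := hLS t.card
  obtain ⟨y, hy⟩ := htt r hr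
  have hm : ∀ i, ∃ m : ℤ, (T ^ ((r : ℤ) * m)) y ∈ (g i) ⁻¹' V := by
    intro i
    have hVi : ((g i) ⁻¹' V).Nonempty := hVne.preimage (g i).surjective
    obtain ⟨z, hz1, m, rfl⟩ := hy.inter_open_nonempty _ (hV.preimage (g i).continuous) hVi
    exact ⟨m, hz1⟩
  choose m hm using hm
  set n : Fin t.card → ℤ := fun i => (r : ℤ) * m i with hn
  set C : Set E := ⋂ i, (⇑(T ^ (n i))) ⁻¹' ((g i) ⁻¹' V) with hC
  have hCo : IsOpen C := isOpen_iInter_of_finite fun i =>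
    (hV.preimage (g i).continuous).preimage (T ^ (n i)).continuous
  have hCne : C.Nonempty := ⟨y, Set.mem_iInter.2 fun i => hm i⟩
  obtain ⟨ν, hν, hTν, hνC⟩ := exists_invariant_pos T Hs hc hmin C hCo hCne
  apply hνC
  refine l2_main T hTν P hP t.card (fun i => (g i) ⁻¹' U) (fun i => (g i) ⁻¹' V)
    (fun i => (hU.preimage (g i).continuous).measurableSet)
    (fun i => (hV.preimage (g i).continuous).measurableSet) n hgU ?_ (hr2 n fun i => ⟨m i, rfl⟩)
  intro i k x hx hx2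
  refine hcon k (g i x) hx ?_
  rw [← commute_zpow T (g i) (hg i)]
  exact hx2

/-- the class of polynomials for which local solvability is proved here -/
def PowerForm (P : ℤ[X]) : Prop :=
  ∃ (c A t s B : ℤ) (k : ℕ), 0 < k ∧ c ≠ 0 ∧ A ≠ 0 ∧ t ≠ 0 ∧
    C c * P = C A * (C t * X + C s) ^ k + C B

theorem powerForm_one (P : ℤ[X]) (h : P.natDegree = 1) : PowerForm P := by
  refine ⟨1, 1, P.coeff 1, P.coeff 0, 0, 1, one_pos, one_ne_zero, one_ne_zero, ?_, ?_⟩
  · rw [← h]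
    exact leadingCoeff_ne_zero.2 (by rintro rfl; simp at h)
  · have := Polynomial.eq_X_add_C_of_natDegree_le_one h.le
    conv_lhs => rw [this]
    simp

theorem powerForm_two (P : ℤ[X]) (h : P.natDegree = 2) : PowerForm P := by
  have ha : P.coeff 2 ≠ 0 := by
    rw [← h]
    exact leadingCoeff_ne_zero.2 (by rintro rfl; simp at h)
  refine ⟨4 * P.coeff 2, 1, 2 * P.coeff 2, P.coeff 1,
    4 * P.coeff 2 * P.coeff 0 - P.coeff 1 ^ 2, 2, two_pos, ?_, one_ne_zero, ?_, ?_⟩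
  · simpa using ha
  · simpa using ha
  · have h3 : P = C (P.coeff 2) * X ^ 2 + C (P.coeff 1) * X + C (P.coeff 0) :=
      Polynomial.eq_quadratic_of_degree_le_two (by
        rw [degree_le_iff_coeff_zero]
        intro m hm
        exact coeff_eq_zero_of_natDegree_lt (by rw [h]; exact_mod_cast hm))
    clear ha h
    generalize P.coeff 2 = a at *
    generalize P.coeff 1 = b at *
    generalize P.coeff 0 = e at *
    subst h3
    simp only [map_mul, map_sub, map_pow, map_one]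
    have h4 : (C (4 : ℤ) : ℤ[X]) = 4 := rfl
    have h2 : (C (2 : ℤ) : ℤ[X]) = 2 := rfl
    rw [h4, h2]
    ring

theorem powerForm_LS (P : ℤ[X]) (hP : 0 < P.natDegree) (h : PowerForm P) : LS P := by
  obtain ⟨c, A, t, s, B, k, hk, hc, hA, ht, hPe⟩ := h
  exact ls_of_large P hP (lsLarge_of_power P c A t s B k hk hc hA ht hPe)

theorem poly_countable : Countable ℤ[X] := by
  have h : Function.Surjective
      (fun a : Σ n : ℕ, (Fin n → ℤ) => ∑ i : Fin a.1, monomial (i : ℕ) (a.2 i)) := by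
    intro P
    refine ⟨⟨P.natDegree + 1, fun i => P.coeff i⟩, ?_⟩
    simp only
    rw [Fin.sum_univ_eq_sum_range (fun i => monomial i (P.coeff i))]
    exact (P.as_sum_range).symm
  exact h.countable

theorem generic (ι : Type) [Countable ι] (T : ι → (E ≃ₜ E)) :
    ∃ S : Set E, IsGδ S ∧ Dense S ∧ ∀ x ∈ S, ∀ j : ι,
      (∀ z : E, Dense {y : E | ∃ g : E ≃ₜ E, g * T j = T j * g ∧ g z = y}) →
      (∀ r : ℕ, 0 < r → ∃ y : E, Dense (Set.range fun n : ℤ => (T j ^ ((r : ℤ) * n)) y)) →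
      ∀ P : ℤ[X], 0 < P.natDegree → LS P →
        Dense (Set.range fun n : ℤ => (T j ^ (P.eval n)) x) := by
  classical
  have hcP : Countable ℤ[X] := poly_countable
  let good : ι → ℤ[X] → Prop := fun j P =>
    (∀ z : E, Dense {y : E | ∃ g : E ≃ₜ E, g * T j = T j * g ∧ g z = y}) ∧
    (∀ r : ℕ, 0 < r → ∃ y : E, Dense (Set.range fun n : ℤ => (T j ^ ((r : ℤ) * n)) y)) ∧
    0 < P.natDegree ∧ LS P
  let I : Set (ι × ℤ[X] × Set E) :=
    {a | good a.1 a.2.1 ∧ a.2.2 ∈ TopologicalSpace.countableBasis E}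
  have hI : I.Countable := by
    have h1 : ((Set.univ : Set ι) ×ˢ ((Set.univ : Set ℤ[X]) ×ˢ
        TopologicalSpace.countableBasis E)).Countable :=
      Set.countable_univ.prod (Set.countable_univ.prod
        (TopologicalSpace.countable_countableBasis E))
    refine h1.mono ?_
    rintro ⟨j, P, V⟩ ⟨_, h⟩
    exact ⟨Set.mem_univ _, Set.mem_univ _, h⟩
  let O : ι × ℤ[X] × Set E → Set E := fun a =>
    ⋃ n : ℤ, (⇑(T a.1 ^ (a.2.1.eval n))) ⁻¹' a.2.2
  have hO : ∀ a ∈ I, IsOpen (O a) := by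
    rintro ⟨j, P, V⟩ ⟨_, h⟩
    exact isOpen_iUnion fun n =>
      (TopologicalSpace.isOpen_of_mem_countableBasis h).preimage (T j ^ (P.eval n)).continuous
  have hD : ∀ a ∈ I, Dense (O a) := by
    rintro ⟨j, P, V⟩ ⟨⟨h1, h2, h3, h4⟩, h⟩
    rw [dense_iff_inter_open]
    intro U hU hUne
    obtain ⟨n, x, hx, hxn⟩ := two_body (T j) {g | g * T j = T j * g} (fun g hg => hg) h1 h2 P h3 h4
      U V hU hUne (TopologicalSpace.isOpen_of_mem_countableBasis h)
      (TopologicalSpace.nonempty_of_mem_countableBasis h)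
    exact ⟨x, hx, Set.mem_iUnion.2 ⟨n, hxn⟩⟩
  refine ⟨⋂ a ∈ I, O a, IsGδ.biInter hI fun a ha => (hO a ha).isGδ,
    dense_biInter_of_isOpen hO hI hD, ?_⟩
  intro x hx j h1 h2 P h3 h4
  rw [(TopologicalSpace.isBasis_countableBasis E).dense_iff]
  intro V hV _
  have h5 := Set.mem_iInter₂.1 hx ⟨j, P, V⟩ ⟨⟨h1, h2, h3, h4⟩, hV⟩
  obtain ⟨n, hn⟩ := Set.mem_iUnion.1 h5
  exact ⟨_, hn, ⟨n, rfl⟩⟩

end Pool.Agent.W_cae956_h75
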