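import Pool.Agent.W_cae956_h75.Main

set_option autoImplicit false

/-! # MP_cae956_an: density of the single polynomial orbits without any mixing assumption

For commuting maps generating a minimal group, all totally transitive, one dense G-delta set of
points has all its polynomial orbits `{T_j ^ p(n) x}` dense, for all polynomials of degree at most
two and all shifted monomials (and all polynomials with the solvability property spelled out
below). Nothing is assumed about mixing or about equicontinuous factors. -/

open Polynomial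

namespace Pool.Agent.Results.MP_cae956_an.CoordinateOrbits

theorem result :
    ∀ (Y : Type) [MetricSpace Y] [CompactSpace Y] (ℓ : ℕ) (T : Fin ℓ → (Y ≃ₜ Y)),
      ∃ S : Set Y, IsGδ S ∧ Dense S ∧ ∀ x ∈ S, ∀ j : Fin ℓ,
        -- the homeomorphisms commuting with `T j` act minimally (this holds for every `j` if the
        -- maps `T i` commute with each other and the group they generate acts minimally)
        (∀ z : Y, Dense {y : Y | ∃ g : Y ≃ₜ Y, g * T j = T j * g ∧ g z = y}) →
        -- `T j` is totally transitive
        (∀ r : ℕ, 0 < r → ∃ y : Y, Dense (Set.range fun n : ℤ => (T j ^ ((r : ℤ) * n)) y)) →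
        ∀ p : ℤ[X], 0 < p.natDegree →
          -- `p` has degree at most two, or `c p = A (t X + s) ^ k + B`, or `p` has the property
          -- that any `d` integers in `r ℤ` have a translate in the values of `p` modulo every `Q`
          (p.natDegree ≤ 2 ∨
            (∃ (c A t s B : ℤ) (k : ℕ), 0 < k ∧ c ≠ 0 ∧ A ≠ 0 ∧ t ≠ 0 ∧
              C c * p = C A * (C t * X + C s) ^ k + C B) ∨
            (∀ d : ℕ, ∃ r : ℕ, 0 < r ∧ ∀ n : Fin d → ℤ, (∀ i, (r : ℤ) ∣ n i) →
              ∀ Q : ℕ, 0 < Q →
                ∃ (w : ℤ) (z : Fin d → ℤ), ∀ i, (Q : ℤ) ∣ p.eval (z i) - (w + n i))) →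
          Dense (Set.range fun n : ℤ => (T j ^ (p.eval n)) x) := by
  intro Y _ _ ℓ T
  obtain ⟨S, hS1, hS2, hS3⟩ := Pool.Agent.W_cae956_h75.generic (Fin ℓ) T
  refine ⟨S, hS1, hS2, fun x hx j h1 h2 p hp hcase => hS3 x hx j h1 h2 p hp ?_⟩
  rcases hcase with h | h | h
  · have h3 : p.natDegree = 1 ∨ p.natDegree = 2 := by omega
    rcases h3 with h3 | h3
    · exact Pool.Agent.W_cae956_h75.powerForm_LS p hp (Pool.Agent.W_cae956_h75.powerForm_one p h3)
    · exact Pool.Agent.W_cae956_h75.powerForm_LS p hp (Pool.Agent.W_cae956_h75.powerForm_two p h3)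
  · exact Pool.Agent.W_cae956_h75.powerForm_LS p hp h
  · exact h

end Pool.Agent.Results.MP_cae956_an.CoordinateOrbits
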